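import Pool.Agent.Lib.MP_3dbc4a_an_WI.PhiD

/-!
# MP_3dbc4a_an, project W, block S: dependence of the residual on the parameter and on the far future
-/

set_option autoImplicit false

open Filter Set
open scoped Topology

namespace Pool.Agent.WildW

/-- a shifted word is admissible -/
theorem adm_shiftS {s : ℤ → Sym} (hs : Adm s) (m : ℤ) : Adm (shiftW s m) := by
  refine ⟨fun n j h => ?_, fun n v h => hs.2 (n + m) v h⟩
  have h1 := hs.1 (n + m) j h
  have h2 : n + m + 1 = n + 1 + m := by ring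
  rw [h2] at h1
  exact h1

/-- a power of a number less than one tends to zero -/
private theorem res_lim {c : ℝ} (h0 : 0 ≤ c) (h1 : c < 1) :
    Tendsto (fun k : ℕ => 10 * c ^ k) atTop (𝓝 0) := by
  have h2 := (tendsto_pow_atTop_nhds_zero_of_lt_one h0 h1).const_mul 10
  rwa [mul_zero] at h2

/-- **S7** dependence of the residual on the parameter only (`Phi_dep`, windows to infinity) -/
theorem Phi_par (F : Fam) {a a' : Fin 8 → ℝ} (ha : Cube a) (ha' : Cube a') {s : ℤ → Sym}
    (hs : Adm s) {n : ℤ} {i : Fin 8} (hi : s n = .d i) :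
    |Phi F a s n - Phi F a' s n - (a i - a' i)| ≤ 4 * eps * dist a a' := by
  have h1 : ∀ k : ℕ, |Phi F a s n - Phi F a' s n - (a i - a' i)| ≤
      10 * (1 / 2 ^ 119) ^ k + 10 * (1 / 2 ^ 19) ^ k + 4 * eps * dist a a' := fun k =>
    Phi_dep F ha ha' hs hs hi (u := k) (v := k) fun m _ _ => rfl
  have h2 : Tendsto (fun k : ℕ => (10 * (1 / 2 ^ 119) ^ k + 10 * (1 / 2 ^ 19) ^ k +
      4 * eps * dist a a' : ℝ)) atTop (𝓝 (0 + 0 + 4 * eps * dist a a')) :=
    ((res_lim (by norm_num) (by norm_num)).add (res_lim (by norm_num) (by norm_num))).add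
      tendsto_const_nhds
  have h3 := ge_of_tendsto' h2 h1
  rwa [add_zero, zero_add] at h3

/-- **S7'** dependence of the residual on the far future only -/
theorem Phi_far (F : Fam) {a : Fin 8 → ℝ} (ha : Cube a) {s s' : ℤ → Sym} (hs : Adm s)
    (hs' : Adm s') {n : ℤ} {i : Fin 8} (hi : s n = .d i) {v : ℕ}
    (hag : ∀ m, m ≤ n + v → s m = s' m) :
    |Phi F a s n - Phi F a s' n| ≤ 10 * (1 / 2 ^ 19) ^ v := by
  have h1 : ∀ k : ℕ, |Phi F a s n - Phi F a s' n| ≤
      10 * (1 / 2 ^ 119) ^ k + 10 * (1 / 2 ^ 19) ^ v := fun k => by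
    have h2 := Phi_dep F ha ha hs hs' hi (u := k) (v := v) fun m _ h3 => hag m h3
    rwa [sub_self, sub_zero, dist_self, mul_zero, add_zero] at h2
  have h2 : Tendsto (fun k : ℕ => (10 * (1 / 2 ^ 119) ^ k + 10 * (1 / 2 ^ 19) ^ v : ℝ)) atTop
      (𝓝 (0 + 10 * (1 / 2 ^ 19) ^ v)) :=
    (res_lim (by norm_num) (by norm_num)).add tendsto_const_nhds
  have h3 := ge_of_tendsto' h2 h1
  rwa [zero_add] at h3

/-- **S9** shift of the residual -/
theorem Phi_shift (F : Fam) {a : Fin 8 → ℝ} (ha : Cube a) {s : ℤ → Sym} (hs : Adm s) (m n : ℤ) :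
    Phi F a (shiftW s m) n = Phi F a s (n + m) := by
  unfold Phi
  rw [(xs_shift F ha hs m n).1, (xs_shift F ha hs m (n - 1)).1,
    (xs_shift F ha hs m (n + 1)).1]
  have h1 : n - 1 + m = n + m - 1 := by ring
  have h2 : n + 1 + m = n + m + 1 := by ring
  rw [h1, h2]

end Pool.Agent.WildW
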