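import Pool.Agent.Lib.MP_3dbc4a_an_WS.Itin

/-!
# MP_3dbc4a_an, project W, block S: the itinerary is admissible
-/

set_option autoImplicit false

open Filter Set
open scoped Topology

namespace Pool.Agent.WildW

/-- every `f` is followed by `f` or `g` -/
private def AQ (w : List Pl) : Prop :=
  ∀ k j, w[k]? = some (.f j) → (∃ j', w[k + 1]? = some (.f j')) ∨ w[k + 1]? = some .g

private theorem AQ_cons {c : Pl} {w : List Pl}
    (h : ∀ j, c = .f j → (∃ j', w[0]? = some (.f j')) ∨ w[0]? = some .g) (hw : AQ w) :
    AQ (c :: w) := by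
  intro k j hk
  cases k with
  | zero =>
    rw [List.getElem?_cons_zero] at hk
    have h1 := h j (Option.some.inj hk)
    simpa using h1
  | succ k =>
    rw [List.getElem?_cons_succ] at hk
    have h1 := hw k j hk
    simpa using h1

private theorem AQ_u {u : List Pl} (h : AdmL u) : AQ (u ++ [.g]) := by
  intro k j hk
  rcases lt_trichotomy k u.length with h1 | h1 | h1
  · rw [List.getElem?_append_left h1] at hk
    rcases Nat.lt_or_ge (k + 1) u.length with h2 | h2
    · rw [List.getElem?_append_left h2]
      have h3 : u[k + 1]? = some u[k + 1] := List.getElem?_eq_getElem h2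
      rcases h k (.f j) u[k + 1] j hk h3 rfl with ⟨j', h4⟩ | h4
      · exact Or.inl ⟨j', by rw [h3, h4]⟩
      · exact Or.inr (by rw [h3, h4])
    · have h3 : k + 1 = u.length := by omega
      rw [h3, List.getElem?_append_right le_rfl, Nat.sub_self]
      exact Or.inr rfl
  · rw [h1, List.getElem?_append_right le_rfl, Nat.sub_self] at hk
    simp at hk
  · rw [List.getElem?_append_right h1.le] at hk
    have h2 : k - u.length = (k - u.length - 1) + 1 := by omega
    rw [h2, List.getElem?_cons_succ] at hk
    simp at hk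

private theorem AQ_tail (B : List KB) {u : List Pl} (h : AdmL u) : AQ (tailL B u) := by
  have e : tailL B u = B.map Pl.f ++ (.f mid :: .g :: (u ++ [.g])) := by
    simp [tailL]
  rw [e]
  have h1 : AQ (.f mid :: .g :: (u ++ [.g])) :=
    AQ_cons (fun j _ => Or.inr rfl) (AQ_cons (fun j hj => by simp at hj) (AQ_u h))
  clear e
  induction B with
  | nil => exact h1
  | cons b B ih =>
    rw [List.map_cons, List.cons_append]
    refine AQ_cons (fun j _ => Or.inl ?_) ih
    cases B with
    | nil => exact ⟨mid, rfl⟩
    | cons b' B' => exact ⟨b', rfl⟩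

private theorem tail_getD {w : List Pl} (hw : AQ w) {k : ℕ} {j : KB}
    (h : w.getD k (.e estar) = .f j) :
    (∃ j', w.getD (k + 1) (.e estar) = .f j') ∨ w.getD (k + 1) (.e estar) = .g := by
  rw [List.getD_eq_getElem?_getD] at h
  have h1 : w[k]? = some (.f j) := by
    rcases h2 : w[k]? with _ | c
    · rw [h2] at h
      simp at h
    · rw [h2] at h
      exact congrArg some h
  rcases hw k j h1 with ⟨j', h2⟩ | h2
  · exact Or.inl ⟨j', by rw [List.getD_eq_getElem?_getD, h2]; rfl⟩
  · exact Or.inr (by rw [List.getD_eq_getElem?_getD, h2]; rfl)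

/-- the last letter before a past word is a filler -/
private theorem itin_before (E : ℕ → List KA) (B : ℕ → List KB) (u : ℕ → List Pl)
    (hu : ∀ j, (u j).length ≤ j) {J : ℕ} (hB : ∀ j < J, (B j).length = 6 * nn j) :
    itin E B u J (TT J - nn J - 1) = .p (.e estar) := by
  cases J with
  | zero => rfl
  | succ J =>
    have h1 := fit J
    have h2 := TT_succS J
    have h3 : (TT (J + 1) - nn (J + 1) - 1 : ℤ) =
        TT J + ((mm J - nn (J + 1) - 1 : ℕ) : ℤ) + 1 := by
      omega
    rw [h3, itin_tail E B u hu (Nat.lt_succ_self J) (Or.inr rfl), List.getD_eq_default]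
    have h4 := hB J (Nat.lt_succ_self J)
    have h5 := hu J
    simp only [tailL, List.length_append, List.length_map, List.length_cons, List.length_nil]
    omega

private theorem itin_next (E : ℕ → List KA) (B : ℕ → List KB) (u : ℕ → List Pl)
    (hu : ∀ j, (u j).length ≤ j) (hu2 : ∀ j, AdmL (u j)) {J : ℕ}
    (hB : ∀ j < J, (B j).length = 6 * nn j) (n : ℤ) (j : KB)
    (h : itin E B u J n = .p (.f j)) :
    (∃ j', itin E B u J (n + 1) = .p (.f j')) ∨ itin E B u J (n + 1) = .p .g := by
  induction J generalizing n j with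
  | zero => simp [itin] at h
  | succ J ih =>
    have hB' : ∀ j < J, (B j).length = 6 * nn j := fun j hj => hB j (Nat.lt_succ_of_lt hj)
    have hst : ∀ {n : ℤ}, n < TT J - nn J → itin E B u (J + 1) n = itin E B u J n :=
      fun hn => itin_stab E B u (Nat.le_succ J) hn
    rcases lt_or_ge n (TT J - nn J) with h1 | h1
    · rw [hst h1] at h
      rcases lt_or_ge (n + 1) (TT J - nn J) with h2 | h2
      · rw [hst h2]
        exact ih hB' n j h
      · have h3 : n = TT J - nn J - 1 := by omega
        rw [h3, itin_before E B u hu hB'] at h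
        simp at h
    · rw [itin, if_neg (not_lt.2 h1)] at h
      rcases lt_or_ge n (TT J) with h2 | h2
      · rw [if_pos h2] at h
        simp at h
      · rw [if_neg (not_lt.2 h2)] at h
        rcases eq_or_lt_of_le h2 with h3 | h3
        · rw [if_pos h3.symm] at h
          simp at h
        · rw [if_neg h3.ne', Lt.p.injEq] at h
          have h4 : ¬ n + 1 < TT J - nn J := by omega
          have h5 : ¬ n + 1 < TT J := by omega
          have h6 : ¬ n + 1 = TT J := by omega
          have h7 : (n + 1 - TT J - 1).toNat = (n - TT J - 1).toNat + 1 := by omega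
          rw [itin, if_neg h4, if_neg h5, if_neg h6, h7]
          rcases tail_getD (AQ_tail (B J) (hu2 J)) h with ⟨j', h8⟩ | h8
          · exact Or.inl ⟨j', by rw [h8]⟩
          · exact Or.inr (by rw [h8])

private theorem adm_of (s : ℤ → Lt)
    (h : ∀ n j, s n = .p (.f j) → (∃ j', s (n + 1) = .p (.f j')) ∨ s (n + 1) = .p .g) :
    Adm (symOf s) := by
  refine ⟨fun n j hn => ?_, fun n v hn => ?_⟩
  · have h1 : s n = .p (.f j) := by
      unfold symOf at hn
      cases h2 : s n with
      | p c =>
        rw [h2] at hn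
        simp only [Lt.sym, Sym.p.injEq] at hn
        rw [hn]
      | d i =>
        rw [h2] at hn
        simp [Lt.sym] at hn
    rcases h n j h1 with ⟨j', h2⟩ | h2
    · exact Or.inl ⟨j', by unfold symOf; rw [h2]; rfl⟩
    · exact Or.inr (Or.inl (by unfold symOf; rw [h2]; rfl))
  · unfold symOf at hn
    cases h2 : s n with
    | p c =>
      rw [h2] at hn
      simp [Lt.sym] at hn
    | d i =>
      rw [h2] at hn
      simp [Lt.sym] at hn

/-- **S6'** admissibility, only the words of the junctions `j < J` matter. The last letter before a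
past word is a filler `estar` (`fit`), so `K_2` letters are followed by `K_2` letters or `g`. -/
theorem itin_adm' (E : ℕ → List KA) (B : ℕ → List KB) (u : ℕ → List Pl)
    (hu : ∀ j, (u j).length ≤ j) (hu2 : ∀ j, AdmL (u j)) {J : ℕ}
    (hB : ∀ j < J, (B j).length = 6 * nn j) : Adm (symOf (itin E B u J)) := by
  exact adm_of _ fun n j => itin_next E B u hu hu2 hB n j

/-- **S6** admissibility -/
theorem itin_adm (E : ℕ → List KA) (B : ℕ → List KB) (u : ℕ → List Pl)
    (hu : ∀ j, (u j).length ≤ j) (hu2 : ∀ j, AdmL (u j)) (hB : ∀ j, (B j).length = 6 * nn j)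
    (J : ℕ) : Adm (symOf (itin E B u J)) :=
  itin_adm' E B u hu hu2 (fun j _ => hB j)

theorem itinI_adm (E : ℕ → List KA) (B : ℕ → List KB) (u : ℕ → List Pl)
    (hu : ∀ j, (u j).length ≤ j) (hu2 : ∀ j, AdmL (u j)) (hB : ∀ j, (B j).length = 6 * nn j) :
    Adm (symOf (itinI E B u)) := by
  refine adm_of _ fun n j h => ?_
  have h1 := TT_large (n.toNat + 1)
  have h2 : n ≤ n.toNat := Int.self_le_toNat n
  have h3 : n + 1 < TT (n.toNat + 1 + 2) - nn (n.toNat + 1 + 2) := by
    push_cast at h1
    omega
  have h4 : n < TT (n.toNat + 1 + 2) - nn (n.toNat + 1 + 2) := by omega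
  rw [itinI_eq E B u h4] at h
  rw [itinI_eq E B u h3]
  exact itin_next E B u hu hu2 (fun j _ => hB j) n j h

end Pool.Agent.WildW
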