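import Pool.Agent.Lib.MP_3dbc4a_an_WS.Defs

/-!
# MP_3dbc4a_an, project W, block S: numbers
-/

set_option autoImplicit false

open Filter Set
open scoped Topology

namespace Pool.Agent.WildW

private theorem numA_succ (j : ℕ) : dd (j + 1) = 3 * dd j / 2 := rfl

/-- **S1** growth: `dd (j+1) ≥ dd j + dd j / 2 - 1`. -/
theorem dd_lower (j : ℕ) : 20000 + 9999 * j ≤ dd j := by
  induction j with
  | zero => exact le_rfl
  | succ j ih =>
    have h := numA_succ j
    omega

theorem dd_two (j : ℕ) : 2 * dd j ≤ dd (j + 2) := by
  have h1 := dd_lower j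
  have h2 := numA_succ j
  have h3 : dd (j + 2) = 3 * dd (j + 1) / 2 := rfl
  omega

theorem dd_mono : Monotone dd := by
  refine monotone_nat_of_le_succ fun j => ?_
  have h2 := numA_succ j
  omega

private theorem numA_eight (j : ℕ) : 16 * dd j ≤ dd (j + 8) := by
  have h1 := dd_two j
  have h2 := dd_two (j + 2)
  have h3 := dd_two (j + 4)
  have h4 := dd_two (j + 6)
  have e2 : dd (j + 2 + 2) = dd (j + 4) := rfl
  have e3 : dd (j + 4 + 2) = dd (j + 6) := rfl
  have e4 : dd (j + 6 + 2) = dd (j + 8) := rfl
  omega

private theorem numA_small {j : ℕ} (h : j < 8) : nn j = 14 + j := if_pos h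

private theorem numA_big (i : ℕ) : nn (i + 8) = dd i / 60 + 14 + (i + 8) := by
  unfold nn
  rw [if_neg (by omega), Nat.add_sub_cancel]

private theorem numA_cases (j : ℕ) : j < 8 ∨ ∃ i, j = i + 8 := by
  by_cases h : j < 8
  · exact Or.inl h
  · exact Or.inr ⟨j - 8, by omega⟩

/-- **S2** the two conditions of the transits (`γ_j = j + 2`) -/
theorem C1_ok (j : ℕ) : 22 + 21 * mm j + 101 * (j + 2) + dd (j + 1) ≤ 2 * dd j := by
  have h1 := dd_lower j
  have h2 := numA_succ j
  unfold mm
  omega

theorem C2_ok (j : ℕ) : 2 * dd (j + 1) + 2 ≤ 119 * mm j + dd j := by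
  have h1 := dd_lower j
  have h2 := numA_succ j
  unfold mm
  omega

/-- **S3** lengths -/
theorem nn_lt (j : ℕ) : nn j < nn (j + 1) := by
  rcases numA_cases j with h | ⟨i, rfl⟩
  · rw [numA_small h]
    by_cases h' : j + 1 < 8
    · rw [numA_small h']
      omega
    · have e : j = 7 := by omega
      subst e
      have h1 := numA_big 0
      have h2 : nn (7 + 1) = nn (0 + 8) := rfl
      omega
  · have h1 := numA_big i
    have h2 := numA_big (i + 1)
    have e : nn (i + 8 + 1) = nn (i + 1 + 8) := congrArg nn (by omega)
    have h3 := dd_mono (Nat.le_succ i)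
    have e3 : dd i.succ = dd (i + 1) := rfl
    omega

theorem nn_ge (j : ℕ) : 14 + j ≤ nn j := by
  rcases numA_cases j with h | ⟨i, rfl⟩
  · rw [numA_small h]
  · rw [numA_big]
    omega

theorem nn_two (j : ℕ) : 2 * nn j ≤ nn (j + 8) := by
  have h1 := numA_big j
  have h2 := dd_lower j
  rcases numA_cases j with h | ⟨i, rfl⟩
  · have h3 := numA_small h
    omega
  · have h3 := numA_big i
    have h4 := dd_lower i
    have h5 := numA_eight i
    omega

/-- the words fit between two folds (with room for one filler letter) -/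
theorem fit (j : ℕ) : 6 * nn j + 3 + j + 1 + nn (j + 1) ≤ mm j := by
  unfold mm
  rcases numA_cases j with h | ⟨i, rfl⟩
  · have h2 := dd_lower j
    have h3 := numA_small h
    by_cases h' : j + 1 < 8
    · have h4 := numA_small h'
      omega
    · have e : j = 7 := by omega
      subst e
      have h1 := numA_big 0
      have h4 : nn (7 + 1) = nn (0 + 8) := rfl
      have h5 : dd 0 = 20000 := rfl
      omega
  · have h1 := numA_big i
    have h2 := numA_big (i + 1)
    have e : nn (i + 8 + 1) = nn (i + 1 + 8) := congrArg nn (by omega)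
    have h3 := numA_succ i
    have h4 := dd_lower i
    have h5 := numA_eight i
    omega

/-- the influence of the next change of the itinerary is below the scale of the next word -/
theorem decay (j : ℕ) : 139 * nn (j + 1) + 4 ≤ 19 * mm j := by
  unfold mm
  rcases numA_cases j with h | ⟨i, rfl⟩
  · have h2 := dd_lower j
    by_cases h' : j + 1 < 8
    · have h4 := numA_small h'
      omega
    · have e : j = 7 := by omega
      subst e
      have h1 := numA_big 0
      have h4 : nn (7 + 1) = nn (0 + 8) := rfl
      have h5 : dd 0 = 20000 := rfl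
      have h6 : dd 7 = 341718 := by decide +kernel
      omega
  · have h2 := numA_big (i + 1)
    have e : nn (i + 8 + 1) = nn (i + 1 + 8) := congrArg nn (by omega)
    have h3 := numA_succ i
    have h4 := dd_lower i
    have h5 := numA_eight i
    omega

/-- tolerance -/
theorem tol (j : ℕ) : 2 * dd j + 10 ≤ 120 * nn (j + 8) := by
  have h1 := numA_big j
  have h2 := dd_lower j
  omega

end Pool.Agent.WildW
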