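import Pool.Agent.Lib.MP_3dbc4a_an_WS.Defs

/-!
# MP_3dbc4a_an, project W, block S: parents and sides
-/

set_option autoImplicit false

open Filter Set
open scoped Topology

namespace Pool.Agent.WildW

/-- parents -/
theorem par_le {j : ℕ} (hj : 8 ≤ j) : par j + 8 ≤ j := by
  have h1 : 1 ≤ j / 8 := by omega
  have h2 := Nat.unpair_lt h1
  rw [par]
  omega

theorem par_mod (j : ℕ) : par j % 8 = j % 8 := by
  rw [par]
  omega

/-- every junction is the parent of infinitely many junctions of each side -/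
theorem par_inf (l : ℕ) (c : Bool) (N : ℕ) : ∃ j, N ≤ j ∧ 8 ≤ j ∧ par j = l ∧ sd j = c := by
  obtain ⟨k, hk, hkc⟩ : ∃ k, N + 8 ≤ k ∧ decide (k % 2 = 1) = c := by
    cases c
    · exact ⟨2 * (N + 8), by omega, by simp⟩
    · exact ⟨2 * (N + 8) + 1, by omega, decide_eq_true (by omega)⟩
  have h1 : (8 * Nat.pair (l / 8) k + l % 8) / 8 = Nat.pair (l / 8) k := by omega
  have h2 := Nat.right_le_pair (l / 8) k
  refine ⟨8 * Nat.pair (l / 8) k + l % 8, by omega, by omega, ?_, ?_⟩
  · rw [par, h1, Nat.unpair_pair]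
    show 8 * (l / 8) + (8 * Nat.pair (l / 8) k + l % 8) % 8 = l
    omega
  · rw [sd, h1, Nat.unpair_pair]
    exact hkc

end Pool.Agent.WildW
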