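import Pool.Agent.Lib.MP_3dbc4a_an_WS.NumA

/-!
# MP_3dbc4a_an, project W, block S: the fold times
-/

set_option autoImplicit false

open Filter Set
open scoped Topology

namespace Pool.Agent.WildW

theorem TT_succS (j : ℕ) : TT (j + 1) = TT j + mm j + 1 := rfl

/-- from `fit` -/
theorem TT_gap (j : ℕ) : TT j + 6 * nn j + 5 + j ≤ TT (j + 1) - nn (j + 1) := by
  have h1 := fit j
  rw [TT_succS]
  omega

theorem TT_sub_mono {j k : ℕ} (h : j ≤ k) : TT j - nn j ≤ TT k - nn k := by
  induction k, h using Nat.le_induction with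
  | base => exact le_rfl
  | succ k _ ih =>
    have h1 := TT_gap k
    omega

theorem TT_mono {j k : ℕ} (h : j ≤ k) : TT j ≤ TT k := by
  induction k, h using Nat.le_induction with
  | base => exact le_rfl
  | succ k _ ih =>
    rw [TT_succS]
    omega

/-- `TT (j+2) - nn (j+2) > j` -/
theorem TT_large (j : ℕ) : (j : ℤ) < TT (j + 2) - nn (j + 2) := by
  have h1 := TT_gap (j + 1)
  have h2 : TT 0 ≤ TT (j + 1) := TT_mono (Nat.zero_le _)
  have h3 : TT 0 = 0 := rfl
  rw [h3] at h2
  push_cast at h1
  have h4 : j + 1 + 1 = j + 2 := rfl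
  rw [h4] at h1
  omega

/-- for `Phi_far`: the distance from the fold `j` to the first change of the itinerary when the
junction `J + 1` is added is at least `mm J - nn (J + 1)`, and `decay` -/
theorem far_bound {j J : ℕ} (h : j ≤ J) : (120 * nn (J + 1) + 4 : ℤ) ≤
    19 * (TT (J + 1) - nn (J + 1) - 1 - TT j) := by
  have h1 := decay J
  have h2 := TT_mono h
  rw [TT_succS]
  omega

end Pool.Agent.WildW
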