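import Pool.Agent.Lib.MP_3dbc4a_an_WS.All

/-!
# MP_3dbc4a_an, project W, block S: the chain of tangencies (end of the block)
-/

set_option autoImplicit false

open Filter Set
open scoped Topology

namespace Pool.Agent.WildW

private theorem chain_tendsto :
    Tendsto (fun l : ℕ => (16 : ℝ) / 2 ^ (120 * nn l)) atTop (𝓝 0) := by
  have h1 : Tendsto (fun l : ℕ => (16 : ℝ) * (1 / 2) ^ l) atTop (𝓝 0) := by
    have h2 := (tendsto_pow_atTop_nhds_zero_of_lt_one (by norm_num : (0 : ℝ) ≤ 1 / 2)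
      (by norm_num)).const_mul (16 : ℝ)
    rwa [mul_zero] at h2
  refine squeeze_zero (fun l => by positivity) (fun l => ?_) h1
  rw [one_div_pow, mul_one_div]
  have h2 : l ≤ 120 * nn l := by
    have := nn_ge l
    omega
  have h3 : (2 : ℝ) ^ l ≤ 2 ^ (120 * nn l) := pow_le_pow_right₀ (by norm_num) h2
  exact div_le_div_of_nonneg_left (by norm_num) (by positivity) h3

private theorem chain_pre {B₀ B₁ : List KB} (h : B₀ <+: B₁) {k n : ℕ}
    (hl : B₀.length = 6 * n) (hk : k < n) (hy : ∃ y ∈ (B₀.drop (6 * k)).take 6, y ≠ bot) :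
    ∃ y ∈ (B₁.drop (6 * k)).take 6, y ≠ bot := by
  obtain ⟨R, rfl⟩ := h
  rw [List.drop_append_of_le_length (by omega), List.take_append_of_le_length
    (by rw [List.length_drop]; omega)]
  exact hy

private theorem chain_num (D N : ℕ) (h : 2 * D + 10 ≤ 120 * N) :
    (64 : ℝ) / 2 ^ (120 * N) ≤ (1 / 2 ^ D) ^ 2 := by
  have h1 : (2 : ℝ) ^ (2 * D + 10) ≤ 2 ^ (120 * N) := pow_le_pow_right₀ (by norm_num) h
  have h2 : (64 : ℝ) / 2 ^ (120 * N) ≤ 64 / 2 ^ (2 * D + 10) :=
    div_le_div_of_nonneg_left (by norm_num) (by positivity) h1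
  refine h2.trans ?_
  rw [one_div_pow, ← pow_mul, mul_comm D 2, pow_add,
    div_le_div_iff₀ (by positivity) (by positivity)]
  have h3 : (0 : ℝ) < 2 ^ (2 * D) := by positivity
  nlinarith

/-- **S16 (Chain)** main result of the block. Proof. `a = lim A j`
(`dist a (A j) ≤ 16/2^(120 nn j)`). Residual: at `A (j+8)` the residual of the junction `j` in
`itin (j+8)` is `0` (empty sum in `old`); the full itinerary differs from `itin (j+8)` only from
`TT (j+8) - nn (j+8)` on (S7', `decay`) and the parameter by at most `16/2^(120 nn (j+8))` (S7):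
at most `64/2^(120 nn (j+8)) ≤ 2^(-2 dd j)` (`tol`). -/
theorem chain (F : Fam) {u : ℕ → List Pl} (hu : ∀ j, (u j).length ≤ j)
    (hu2 : ∀ j, AdmL (u j)) :
    ∃ (a : Fin 8 → ℝ) (E : ℕ → List KA) (B : ℕ → List KB), Cube a ∧
      (∀ j, (E j).length = nn j) ∧ (∀ j, (B j).length = 6 * nn j) ∧
      (∀ j, |Phi F a (symOf (itinI E B u)) (TT j)| ≤ (1 / 2 ^ dd j) ^ 2) ∧
      (∀ j, 8 ≤ j → E (par j) <+: E j) ∧ (∀ j, 8 ≤ j → B (par j) <+: B j) ∧
      (∀ j, 8 ≤ j → side (extE (E j) (nn (par j))) = sd j) ∧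
      (∀ j k, 13 ≤ k → k < nn j → ∃ y ∈ ((B j).drop (6 * k)).take 6, y ≠ bot) := by
  obtain ⟨E, B, A, hI⟩ := all_stages F hu hu2
  have hd : ∀ l j, l ≤ j → dist (A l) (A j) ≤ 16 / 2 ^ (120 * nn l) := fun l j h =>
    (hI j).dist_le h le_rfl
  have hc : CauchySeq A := cauchySeq_of_le_tendsto_0' _ hd chain_tendsto
  obtain ⟨a, ha⟩ := cauchySeq_tendsto_of_complete hc
  have hda : ∀ l, dist (A l) a ≤ 16 / 2 ^ (120 * nn l) := fun l =>
    le_of_tendsto (tendsto_const_nhds.dist ha) (eventually_atTop.2 ⟨l, fun j hj => hd l j hj⟩)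
  have hcube : Cube a := by
    intro i
    have h1 : Tendsto (fun j => |A j i|) atTop (𝓝 |a i|) := (tendsto_pi_nhds.1 ha i).abs
    have h2 : |a i| ≤ 1 / 16 := le_of_tendsto' h1 fun j => (hI j).cube le_rfl i
    linarith
  have hE : ∀ j, (E j).length = nn j := fun j => (hI (j + 1)).lenE j (Nat.lt_succ_self j)
  have hB : ∀ j, (B j).length = 6 * nn j := fun j => (hI (j + 1)).lenB j (Nat.lt_succ_self j)
  have htB : ∀ j, 8 ≤ j → B (par j) <+: B j := fun j h8 =>
    (hI (j + 1)).treeB j (Nat.lt_succ_self j) h8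
  refine ⟨a, E, B, hcube, hE, hB, ?_, fun j h8 => (hI (j + 1)).treeE j (Nat.lt_succ_self j) h8,
    htB, fun j h8 => (hI (j + 1)).treeS j (Nat.lt_succ_self j) h8, ?_⟩
  · intro j
    have hs : Adm (symOf (itin E B u (j + 8))) := itin_adm E B u hu hu2 hB (j + 8)
    have hs' : Adm (symOf (itinI E B u)) := itinI_adm E B u hu hu2 hB
    have hfo : symOf (itin E B u (j + 8)) (TT j) = .d (fo j) := by
      unfold symOf
      rw [itin_fold E B u hu (by omega : j < j + 8)]
      rfl
    have h0 : Phi F (A (j + 8)) (symOf (itin E B u (j + 8))) (TT j) = 0 := by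
      have h1 := (hI (j + 8)).old j (by omega)
      rw [Finset.Ico_self, Finset.sum_empty] at h1
      exact abs_nonpos_iff.1 h1
    have h1 := Phi_par F hcube ((hI (j + 8)).cube' le_rfl) hs hfo
    have hdist : dist a (A (j + 8)) ≤ 16 / 2 ^ (120 * nn (j + 8)) := by
      rw [dist_comm]
      exact hda _
    have h2 : |a (fo j) - A (j + 8) (fo j)| ≤ dist a (A (j + 8)) := by
      rw [← Real.dist_eq]
      exact dist_le_pi_dist a (A (j + 8)) (fo j)
    have h3 : 4 * eps * dist a (A (j + 8)) ≤ dist a (A (j + 8)) := by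
      have h4 : 4 * eps ≤ 1 := by
        have h5 : (2 : ℝ) ^ 2 ≤ 2 ^ 1000 := pow_le_pow_right₀ (by norm_num) (by norm_num)
        have h6 : (4 : ℝ) = 2 ^ 2 := by norm_num
        unfold eps
        rw [mul_one_div, div_le_one (by positivity), h6]
        exact h5
      have h5 : (0 : ℝ) ≤ dist a (A (j + 8)) := dist_nonneg
      nlinarith
    have hfar : (120 * nn (j + 8) + 4 : ℤ) ≤ 19 * (TT (j + 8) - nn (j + 8) - 1 - TT j) :=
      far_bound (by omega : j ≤ j + 7)
    obtain ⟨v, hv⟩ : ∃ v : ℕ, (v : ℤ) = TT (j + 8) - nn (j + 8) - 1 - TT j :=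
      ⟨_, Int.toNat_of_nonneg (by omega)⟩
    have h6 := Phi_far F hcube hs hs' hfo (v := v) (by
      intro m hm
      unfold symOf
      rw [itinI_eq E B u (J := j + 8) (by omega)])
    have h7 : 10 * (1 / 2 ^ 19 : ℝ) ^ v ≤ 1 / 2 ^ (120 * nn (j + 8)) := by
      have h8 : 120 * nn (j + 8) + 4 ≤ 19 * v := by omega
      have h9 : (2 : ℝ) ^ (120 * nn (j + 8) + 4) ≤ 2 ^ (19 * v) :=
        pow_le_pow_right₀ (by norm_num) h8
      rw [one_div_pow, ← pow_mul, mul_one_div, div_le_div_iff₀ (by positivity) (by positivity)]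
      rw [pow_add] at h9
      have h10 : (0 : ℝ) < 2 ^ (120 * nn (j + 8)) := by positivity
      nlinarith
    refine le_trans ?_ (chain_num (dd j) (nn (j + 8)) (tol j))
    rw [h0, sub_zero] at h1
    have h11 : (64 : ℝ) / 2 ^ (120 * nn (j + 8)) = 64 * (1 / 2 ^ (120 * nn (j + 8))) := by ring
    have h12 : (16 : ℝ) / 2 ^ (120 * nn (j + 8)) = 16 * (1 / 2 ^ (120 * nn (j + 8))) := by ring
    have h13 : (0 : ℝ) < 1 / 2 ^ (120 * nn (j + 8)) := by positivity
    rw [h12] at hdist
    rw [h11]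
    rw [abs_le] at h1 h2 h6
    rw [abs_le]
    constructor
    · linarith [h1.1, h1.2, h2.1, h2.2, h6.1, h6.2]
    · linarith [h1.1, h1.2, h2.1, h2.2, h6.1, h6.2]
  · intro j
    induction j using Nat.strong_induction_on with
    | _ j ih =>
      intro k hk hkn
      by_cases hcase : (if 8 ≤ j then nn (par j) else 13) ≤ k
      · exact (hI (j + 1)).nbot j (Nat.lt_succ_self j) k hcase hkn
      · split_ifs at hcase with h8
        · have hlt : par j < j := by
            have := par_le h8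
            omega
          exact chain_pre (htB j h8) (hB (par j)) (not_le.1 hcase)
            (ih (par j) hlt k hk (not_le.1 hcase))
        · exact (hcase hk).elim

end Pool.Agent.WildW
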