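import Pool.Agent.Lib.MP_3dbc4a_an_WO.Sieve

/-!
# MP_3dbc4a_an, project W, block S: the iterated sieve
-/

set_option autoImplicit false

open Filter Set
open scoped Topology

namespace Pool.Agent.WildW

private theorem sieve_iter_weak {F : Fam} {a : Fin 8 → ℝ} {i : Fin 8} {E : List KA}
    {B : List KB} (hN : Node F a i E B 149 301) : Node F a i E B 140 320 := by
  have h1 := hN.Xlo
  have h2 := hN.Xhi
  have hW : 0 ≤ Wv F a i E B := by linarith
  exact ⟨hN.len, hN.up, hN.dn, by linarith, by linarith⟩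

private theorem sieve_iter_block {α : Type} {k : ℕ} {B γ B' : List α} (h : B ++ γ <+: B')
    (hB : B.length = 6 * k) (hγ : γ.length = 6) : (B'.drop (6 * k)).take 6 = γ := by
  obtain ⟨t, rfl⟩ := h
  rw [List.append_assoc, ← hB, List.drop_left, ← hγ, List.take_left]

private theorem sieve_iter_ext {E E' : List KA} {e : KA} (h : E ++ [e] <+: E') :
    extE E' E.length = e := by
  obtain ⟨t, rfl⟩ := h
  simp [extE, List.getD]

private theorem sieve_iter_aux (F : Fam) {a : Fin 8 → ℝ} (ha : Cube a) {i : Fin 8} (m : ℕ) :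
    ∀ (c : Bool) (E : List KA) (B : List KB), Node F a i E B 140 320 →
    ∃ (E' : List KA) (B' : List KB), E <+: E' ∧ B <+: B' ∧ E'.length = E.length + 1 + m ∧
      side (extE E' E.length) = c ∧
      (∀ k, E.length ≤ k → k < E.length + 1 + m →
        ∃ y ∈ (B'.drop (6 * k)).take 6, y ≠ bot) ∧
      Node F a i E' B' 149 301 := by
  induction m with
  | zero =>
    intro c E B hN
    obtain ⟨e, γ, he, hγ, hy, hN'⟩ := sieve F ha hN c
    refine ⟨E ++ [e], B ++ γ, List.prefix_append _ _, List.prefix_append _ _, ?_, ?_, ?_, hN'⟩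
    · simp
    · rw [sieve_iter_ext (List.prefix_refl (E ++ [e])), he]
    · intro k hk1 hk2
      obtain rfl : k = E.length := by omega
      rwa [sieve_iter_block (List.prefix_refl (B ++ γ)) hN.len hγ]
  | succ m ih =>
    intro c E B hN
    obtain ⟨e, γ, he, hγ, hy, hN'⟩ := sieve F ha hN c
    obtain ⟨E', B', hE, hB, hl, -, hk, hN2⟩ := ih c (E ++ [e]) (B ++ γ) (sieve_iter_weak hN')
    have hle : (E ++ [e]).length = E.length + 1 := by simp
    refine ⟨E', B', (List.prefix_append _ _).trans hE, (List.prefix_append _ _).trans hB,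
      ?_, ?_, ?_, hN2⟩
    · rw [hl, hle]
      omega
    · rw [sieve_iter_ext hE, he]
    · intro k hk1 hk2
      by_cases h : k = E.length
      · subst h
        rwa [sieve_iter_block hB hN.len hγ]
      · exact hk k (by omega) (by omega)

/-- **S11** iterated sieve: from a node with `|E| = n` to a node with `|E'| = n' > n`. -/
theorem sieve_iter (F : Fam) {a : Fin 8 → ℝ} (ha : Cube a) {i : Fin 8} {E : List KA}
    {B : List KB} (hN : Node F a i E B 140 320) (c : Bool) {n' : ℕ} (hn : E.length < n') :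
    ∃ (E' : List KA) (B' : List KB), E <+: E' ∧ B <+: B' ∧ E'.length = n' ∧
      side (extE E' E.length) = c ∧
      (∀ k, E.length ≤ k → k < n' → ∃ y ∈ (B'.drop (6 * k)).take 6, y ≠ bot) ∧
      Node F a i E' B' 149 301 := by
  obtain ⟨m, rfl⟩ : ∃ m, n' = E.length + 1 + m := ⟨n' - (E.length + 1), by omega⟩
  exact sieve_iter_aux F ha m c E B hN

end Pool.Agent.WildW
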