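import Pool.Agent.Lib.MP_3dbc4a_an_WS.Res

/-!
# MP_3dbc4a_an, project W, block S: solving for the parameter
-/

set_option autoImplicit false

open Filter Set
open scoped Topology

namespace Pool.Agent.WildW

private theorem four_eps_le : 4 * eps ≤ 1 / 2 := by
  have h1 : eps ≤ 1 / 8 := by
    rw [eps]
    have h2 : (8 : ℝ) ≤ 2 ^ 1000 := by
      calc (8 : ℝ) = 2 ^ 3 := by norm_num
        _ ≤ 2 ^ 1000 := pow_le_pow_right₀ (by norm_num) (by norm_num)
    exact one_div_le_one_div_of_le (by norm_num) h2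
  linarith

private theorem eps_nonneg' : 0 ≤ eps := by
  rw [eps]
  positivity

/-- **S8 (Solve)** fixed point of `a ↦ (a_i - Φ(ς_i; a))` on the ball of radius `2ρ`
(Lipschitz constant `4 eps` by S7). -/
theorem solve (F : Fam) {a₀ : Fin 8 → ℝ} (h0 : ∀ i, |a₀ i| ≤ 1 / 16) {ς : Fin 8 → ℤ → Sym}
    (hς : ∀ i, Adm (ς i)) (hi : ∀ i, ς i 0 = .d i) {ρ : ℝ} (hρ : 0 ≤ ρ) (hρ' : ρ ≤ 1 / 32)
    (hPhi : ∀ i, |Phi F a₀ (ς i) 0| ≤ ρ) :
    ∃ a, dist a a₀ ≤ 2 * ρ ∧ ∀ i, Phi F a (ς i) 0 = 0 := by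
  have hcube : ∀ a ∈ Metric.closedBall a₀ (2 * ρ), Cube a := by
    intro a ha i
    have h1 : |a i - a₀ i| ≤ 2 * ρ := by
      rw [← Real.dist_eq]
      exact (dist_le_pi_dist a a₀ i).trans ha
    calc |a i| = |(a i - a₀ i) + a₀ i| := by ring_nf
      _ ≤ |a i - a₀ i| + |a₀ i| := abs_add_le _ _
      _ ≤ 2 * ρ + 1 / 16 := add_le_add h1 (h0 i)
      _ ≤ 1 / 8 := by linarith
  have hmem0 : a₀ ∈ Metric.closedBall a₀ (2 * ρ) := Metric.mem_closedBall_self (by linarith)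
  set T : (Fin 8 → ℝ) → (Fin 8 → ℝ) := fun a i => a i - Phi F a (ς i) 0 with hT
  have hlip : ∀ a ∈ Metric.closedBall a₀ (2 * ρ), ∀ a' ∈ Metric.closedBall a₀ (2 * ρ),
      dist (T a) (T a') ≤ 4 * eps * dist a a' := by
    intro a ha a' ha'
    refine (dist_pi_le_iff (mul_nonneg (by linarith [eps_nonneg']) dist_nonneg)).2 fun i => ?_
    rw [Real.dist_eq]
    have h1 := Phi_par F (hcube a ha) (hcube a' ha') (hς i) (hi i)
    have h2 : T a i - T a' i
        = -(Phi F a (ς i) 0 - Phi F a' (ς i) 0 - (a i - a' i)) := by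
      simp only [hT]; ring
    rw [h2, abs_neg]
    exact h1
  have hT0 : dist (T a₀) a₀ ≤ ρ := by
    refine (dist_pi_le_iff hρ).2 fun i => ?_
    rw [Real.dist_eq]
    have h2 : T a₀ i - a₀ i = -(Phi F a₀ (ς i) 0) := by
      simp only [hT]; ring
    rw [h2, abs_neg]
    exact hPhi i
  have hmaps : MapsTo T (Metric.closedBall a₀ (2 * ρ)) (Metric.closedBall a₀ (2 * ρ)) := by
    intro a ha
    have h1 := hlip a ha a₀ hmem0
    have h2 : dist a a₀ ≤ 2 * ρ := ha
    have h3 := four_eps_le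
    have h4 := eps_nonneg'
    rw [Metric.mem_closedBall]
    calc dist (T a) a₀ ≤ dist (T a) (T a₀) + dist (T a₀) a₀ := dist_triangle _ _ _
      _ ≤ 4 * eps * dist a a₀ + ρ := add_le_add h1 hT0
      _ ≤ 1 / 2 * (2 * ρ) + ρ := by
        gcongr
      _ = 2 * ρ := by ring
  have hcon : ContractingWith (1 / 2) (hmaps.restrict T _ _) := by
    refine ⟨by rw [div_lt_one (by norm_num)]; norm_num, ?_⟩
    refine LipschitzWith.of_dist_le_mul fun a a' => ?_
    have h1 := hlip a.1 a.2 a'.1 a'.2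
    have h3 := four_eps_le
    calc dist (hmaps.restrict T _ _ a) (hmaps.restrict T _ _ a')
        = dist (T a.1) (T a'.1) := rfl
      _ ≤ 4 * eps * dist a.1 a'.1 := h1
      _ ≤ 1 / 2 * dist a.1 a'.1 := by gcongr
      _ = ((1 / 2 : NNReal) : ℝ) * dist a a' := by
        rw [Subtype.dist_eq]
        norm_num
  obtain ⟨a, hamem, hfix, -⟩ := hcon.exists_fixedPoint' Metric.isClosed_closedBall.isComplete
    hmaps hmem0 (edist_ne_top _ _)
  refine ⟨a, hamem, fun i => ?_⟩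
  have h1 : T a i = a i := congrFun hfix i
  simp only [hT] at h1
  linarith

end Pool.Agent.WildW
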