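import Pool.Agent.Lib.MP_3dbc4a_an_WO.NodeRes
import Pool.Agent.Lib.MP_3dbc4a_an_WO.SvBd
import Pool.Agent.Lib.MP_3dbc4a_an_WS.ItinAdm
import Pool.Agent.Lib.MP_3dbc4a_an_WS.Res

/-!
# MP_3dbc4a_an, project W, block S: residuals of the new itinerary at the old parameter
-/

set_option autoImplicit false

open Filter Set
open scoped Topology

namespace Pool.Agent.WildW

private theorem sa_adm (E : ℕ → List KA) {u : ℕ → List Pl} (hu : ∀ j, (u j).length ≤ j)
    (hu2 : ∀ j, AdmL (u j)) {J : ℕ} {B : ℕ → List KB}
    (lenB : ∀ j < J, (B j).length = 6 * nn j) {β : List KB} (hβ : β.length = 6 * nn J) :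
    Adm (symOf (itin E (Function.update B J β) u (J + 1))) := by
  refine itin_adm' E _ u hu hu2 fun j hj => ?_
  rcases eq_or_ne j J with h | h
  · subst h
    rw [Function.update_self]
    exact hβ
  · rw [Function.update_of_ne h]
    exact lenB j (by omega)

private theorem sa_tail (β : List KB) (w : List Pl) {n : ℕ} (hn : n ≤ β.length) :
    (tailL β w).getD n (.e estar) = .f (extB β mid n) := by
  unfold tailL extB
  rcases lt_or_eq_of_le hn with h | h
  · rw [List.getD_eq_getElem?_getD, List.getD_eq_getElem?_getD, List.append_assoc,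
      List.append_assoc, List.getElem?_append_left (by simpa using h), List.getElem?_map,
      List.getElem?_eq_getElem h]
    rfl
  · subst h
    rw [List.getD_eq_getElem?_getD, List.getD_eq_getElem?_getD, List.append_assoc,
      List.append_assoc, List.getElem?_append_right (by simp)]
    simp

/-- The residuals of the old junctions change by at most `2^(-120 nn J)`: the new itinerary agrees
with the old one before `TT J - nn J` (`itin_stab`, `itin_congr`); `Phi_far`, `far_bound`
(`J = J' + 1` since `j < J`), `10 ≤ 2^4`. -/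
theorem new_old {F : Fam} {u : ℕ → List Pl} (hu : ∀ j, (u j).length ≤ j)
    (hu2 : ∀ j, AdmL (u j)) {J : ℕ} {E : ℕ → List KA} {B : ℕ → List KB} {a : Fin 8 → ℝ}
    (ha : Cube a) (lenB : ∀ j < J, (B j).length = 6 * nn j) (e : List KA) {β : List KB}
    (hβ : β.length = 6 * nn J) {j : ℕ} (hj : j < J) :
    |Phi F a (symOf (itin (Function.update E J e) (Function.update B J β) u (J + 1))) (TT j) -
      Phi F a (symOf (itin E B u J)) (TT j)| ≤ 1 / 2 ^ (120 * nn J) := by
  have hadm1 := sa_adm (Function.update E J e) hu hu2 lenB hβ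
  have hadm0 : Adm (symOf (itin E B u J)) := itin_adm' E B u hu hu2 lenB
  obtain ⟨J', rfl⟩ : ∃ J', J = J' + 1 := ⟨J - 1, by omega⟩
  have hfar := far_bound (j := j) (J := J') (by omega)
  set v : ℕ := (TT (J' + 1) - nn (J' + 1) - 1 - TT j).toNat with hv
  have hv0 : (v : ℤ) = TT (J' + 1) - nn (J' + 1) - 1 - TT j := by
    rw [hv]
    exact Int.toNat_of_nonneg (by omega)
  have hfold : symOf (itin (Function.update E (J' + 1) e) (Function.update B (J' + 1) β) u
      (J' + 1 + 1)) (TT j) = .d (fo j) := by
    unfold symOf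
    rw [itin_fold _ _ u hu (by omega : j < J' + 1 + 1)]
    rfl
  have h1 := Phi_far F ha hadm1 hadm0 hfold (v := v) (by
    intro m hm
    unfold symOf
    rw [itin_stab _ _ u (Nat.le_succ (J' + 1)) (by omega),
      itin_congr (E' := E) (B' := B) u (fun k hk => Function.update_of_ne (by omega) _ _)
        (fun k hk => Function.update_of_ne (by omega) _ _)])
  refine h1.trans ?_
  have hv1 : 120 * nn (J' + 1) + 4 ≤ 19 * v := by omega
  have h2 : (10 : ℝ) * (1 / 2 ^ 19) ^ v ≤ 10 * (1 / 2 ^ (120 * nn (J' + 1) + 4)) := by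
    rw [div_pow, one_pow, ← pow_mul]
    gcongr
    · norm_num
  refine h2.trans ?_
  rw [pow_add, mul_one_div, div_le_div_iff₀ (by positivity) (by positivity)]
  have h3 : (0 : ℝ) < 2 ^ (120 * nn (J' + 1)) := by positivity
  nlinarith

/-- The residual of the new junction: `node_resid` for the new itinerary shifted by `TT J`
(`itin_fold`, `itin_past`, `itin_tail`, `Phi_shift`) and `Sv_bounds`. -/
theorem new_last {F : Fam} {u : ℕ → List Pl} (hu : ∀ j, (u j).length ≤ j)
    (hu2 : ∀ j, AdmL (u j)) {J : ℕ} {E : ℕ → List KA} {B : ℕ → List KB} {a : Fin 8 → ℝ}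
    (ha : Cube a) (lenB : ∀ j < J, (B j).length = 6 * nn j) {e : List KA} {β : List KB}
    (he : e.length = nn J) (hN : Node F a (fo J) e β 149 301) :
    |Phi F a (symOf (itin (Function.update E J e) (Function.update B J β) u (J + 1))) (TT J)| ≤
      3 / 2 ^ (120 * nn J) := by
  have hβ : β.length = 6 * nn J := by rw [hN.len, he]
  have hadm1 := sa_adm (Function.update E J e) hu hu2 lenB hβ
  set s₀ := itin (Function.update E J e) (Function.update B J β) u (J + 1) with hs₀
  have hsym : symOf (shiftW s₀ (TT J)) = shiftW (symOf s₀) (TT J) := rfl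
  have hadm : Adm (symOf (shiftW s₀ (TT J))) := by
    rw [hsym]
    exact adm_shiftS hadm1 (TT J)
  have h1 := node_resid F ha hN (by norm_num) hadm (by
    show s₀ (0 + TT J) = _
    rw [zero_add]
    exact itin_fold _ _ u hu (Nat.lt_succ_self J)) (by
    intro n hn
    show s₀ (-(n : ℤ) - 1 + TT J) = _
    have h2 := itin_past (Function.update E J e) (Function.update B J β) u hu
      (Nat.lt_succ_self J) (k := n) (by omega)
    rw [Function.update_self] at h2
    rw [show -(n : ℤ) - 1 + TT J = TT J - n - 1 by ring]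
    exact h2) (by
    intro n hn
    show s₀ ((n : ℤ) + 1 + TT J) = _
    have h2 := itin_tail (Function.update E J e) (Function.update B J β) u hu
      (Nat.lt_succ_self J) (k := n) (Or.inr rfl)
    rw [Function.update_self, sa_tail β (u J) hn] at h2
    rw [show (n : ℤ) + 1 + TT J = TT J + n + 1 by ring]
    exact h2)
  rw [hsym, Phi_shift F ha hadm1, zero_add] at h1
  refine h1.trans ?_
  have h3 := (Sv_bounds F ha (fo J) e β).2
  rw [hβ, div_pow, one_pow, ← pow_mul] at h3
  calc 3 * Sv F a (fo J) e β ≤ 3 * (1 / 2 ^ (20 * (6 * nn J))) := by gcongr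
    _ = 3 / 2 ^ (120 * nn J) := by
      rw [show 20 * (6 * nn J) = 120 * nn J by ring]
      ring

end Pool.Agent.WildW
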