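import Pool.Agent.Lib.MP_3dbc4a_an_WS.InvD
import Pool.Agent.Lib.MP_3dbc4a_an_WS.Solve
import Pool.Agent.Lib.MP_3dbc4a_an_WS.StageA

/-!
# MP_3dbc4a_an, project W, block S: the new parameter
-/

set_option autoImplicit false

open Filter Set
open scoped Topology

namespace Pool.Agent.WildW

/-- the last junction `j ≤ J` with `j % 8 = i` -/
private def lj (J : ℕ) (i : ℕ) : ℕ := J - (J - i) % 8

private theorem lj_le (J i : ℕ) : lj J i ≤ J := by
  unfold lj
  omega

private theorem lj_fo {J : ℕ} {i : Fin 8} (h : (i : ℕ) ≤ J) : fo (lj J i) = i := by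
  have h1 := i.isLt
  refine Fin.ext ?_
  show lj J i % 8 = i
  unfold lj
  omega

private theorem lj_lt (J i : ℕ) : J < lj J i + 8 := by
  unfold lj
  omega

private theorem lj_eq {J j : ℕ} (h : j ≤ J) (h' : J < j + 8) : lj J (fo j : ℕ) = j := by
  show lj J (j % 8) = j
  unfold lj
  omega

/-- The new parameter: `solve` at `A J` with `ρ = 4/2^(120 nn J)` for the words `ς i` = the new
itinerary shifted by `TT j`, `j = J - (J - i) % 8` the last junction `j ≤ J` with `j % 8 = i`, if
`i ≤ J`, and the root word `sf i estar mid` if `i > J`. At `A J` the residuals are at most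
`3/2^(120 nn J)` (`new_last`), `1/2^(120 nn J)` (`new_old`, and `old` with an empty sum), `0`
(`root`). -/
theorem new_par {F : Fam} {u : ℕ → List Pl} (hu : ∀ j, (u j).length ≤ j)
    (hu2 : ∀ j, AdmL (u j)) {J : ℕ} {E : ℕ → List KA} {B : ℕ → List KB}
    {A : ℕ → Fin 8 → ℝ} (hI : Inv F u J E B A) {e : List KA} {β : List KB}
    (he : e.length = nn J) (hN : Node F (A J) (fo J) e β 149 301) :
    ∃ α : Fin 8 → ℝ, dist α (A J) ≤ 8 / 2 ^ (120 * nn J) ∧ Cube α ∧
      (∀ i : Fin 8, J + 1 ≤ (i : ℕ) → Rr F α i (fun _ => estar) (fun _ => mid) = 0) ∧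
      ∀ j ≤ J, J < j + 8 → Phi F α (symOf (itin (Function.update E J e)
        (Function.update B J β) u (J + 1))) (TT j) = 0 := by
  have hβ : β.length = 6 * nn J := by rw [hN.len, he]
  have hcube : Cube (A J) := hI.cube' le_rfl
  set N : ℤ → Lt := itin (Function.update E J e) (Function.update B J β) u (J + 1) with hNdef
  have hadm : Adm (symOf N) := by
    refine itin_adm' _ _ u hu hu2 fun j hj => ?_
    rcases eq_or_ne j J with rfl | hne
    · rw [Function.update_self]
      exact hβ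
    · rw [Function.update_of_ne hne]
      exact hI.lenB j (lt_of_le_of_ne (Nat.lt_succ_iff.1 hj) hne)
  -- the exponent
  have hexp : (128 : ℝ) ≤ 2 ^ (120 * nn J) := by
    have h1 := nn_ge J
    calc (128 : ℝ) = 2 ^ 7 := by norm_num
      _ ≤ 2 ^ (120 * nn J) := pow_le_pow_right₀ (by norm_num) (by omega)
  have hpos : (0 : ℝ) < 2 ^ (120 * nn J) := by positivity
  -- the words
  set ς : Fin 8 → ℤ → Sym := fun i => if (i : ℕ) ≤ J then shiftW (symOf N) (TT (lj J i)) else
    symOf (sf i (fun _ => estar) (fun _ => mid)) with hς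
  have hς1 : ∀ i : Fin 8, (i : ℕ) ≤ J → ς i = shiftW (symOf N) (TT (lj J i)) := fun i hi =>
    if_pos hi
  have hς2 : ∀ i : Fin 8, ¬ (i : ℕ) ≤ J → ς i = symOf (sf i (fun _ => estar) (fun _ => mid)) :=
    fun i hi => if_neg hi
  have hςadm : ∀ i, Adm (ς i) := by
    intro i
    by_cases hi : (i : ℕ) ≤ J
    · rw [hς1 i hi]
      exact adm_shiftS hadm _
    · rw [hς2 i hi]
      exact adm_sf i _ _
  have hς0 : ∀ i, ς i 0 = .d i := by
    intro i
    by_cases hi : (i : ℕ) ≤ J
    · rw [hς1 i hi]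
      show (N (0 + TT (lj J i))).sym = .d i
      rw [zero_add, hNdef, itin_fold _ _ u hu (Nat.lt_succ_of_le (lj_le J i)), lj_fo hi]
      rfl
    · rw [hς2 i hi]
      show (sf i (fun _ => estar) (fun _ => mid) 0).sym = .d i
      rw [OB.sf_zero]
      rfl
  have hPhi : ∀ i, |Phi F (A J) (ς i) 0| ≤ 4 / 2 ^ (120 * nn J) := by
    intro i
    by_cases hi : (i : ℕ) ≤ J
    · rw [hς1 i hi, Phi_shift F hcube hadm, zero_add]
      rcases (lj_le J i).eq_or_lt with hj | hj
      · rw [hj]
        refine (new_last hu hu2 hcube hI.lenB he hN).trans ?_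
        gcongr
        norm_num
      · have h1 := new_old hu hu2 hcube hI.lenB e hβ hj (F := F) (E := E)
        have h2 := hI.old _ hj
        rw [Finset.Ico_eq_empty_of_le (lj_lt J i).le, Finset.sum_empty] at h2
        have h3 : Phi F (A J) (symOf (itin E B u J)) (TT (lj J i)) = 0 :=
          abs_eq_zero.1 (le_antisymm h2 (abs_nonneg _))
        rw [h3, sub_zero] at h1
        refine h1.trans ?_
        gcongr
        norm_num
    · rw [hς2 i hi]
      have h1 := hI.root i (by omega)
      unfold Rr at h1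
      rw [h1, abs_zero]
      positivity
  have hρ' : (4 : ℝ) / 2 ^ (120 * nn J) ≤ 1 / 32 := by
    rw [div_le_div_iff₀ hpos (by norm_num)]
    linarith
  obtain ⟨α, hα, hα0⟩ := solve F (hI.cube le_rfl) hςadm hς0 (by positivity) hρ' hPhi
  have hα' : dist α (A J) ≤ 8 / 2 ^ (120 * nn J) := by
    refine hα.trans (le_of_eq ?_)
    ring
  have hαc : Cube α := by
    intro i
    have h1 : |α i - A J i| ≤ 2 * (4 / 2 ^ (120 * nn J)) := by
      rw [← Real.dist_eq]
      exact (dist_le_pi_dist α (A J) i).trans hα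
    have h2 := hI.cube le_rfl i
    rw [abs_le] at h1 h2 ⊢
    constructor <;> linarith [h1.1, h1.2, h2.1, h2.2]
  refine ⟨α, hα', hαc, fun i hi => ?_, fun j hj hj' => ?_⟩
  · have h1 := hα0 i
    rw [hς2 i (by omega)] at h1
    exact h1
  · have h1 := hα0 (fo j)
    have h2 : ((fo j : Fin 8) : ℕ) ≤ J := (Nat.mod_le j 8).trans hj
    rw [hς1 _ h2, lj_eq hj hj', Phi_shift F hαc hadm, zero_add] at h1
    exact h1

end Pool.Agent.WildW
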