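import Pool.Agent.Lib.MP_3dbc4a_an_WS.Parent
import Pool.Agent.Lib.MP_3dbc4a_an_WS.SieveI
import Pool.Agent.Lib.MP_3dbc4a_an_WS.StageB

/-!
# MP_3dbc4a_an, project W, block S: one stage of the construction
-/

set_option autoImplicit false

open Filter Set
open scoped Topology

namespace Pool.Agent.WildW

private theorem stage_nn {i j : ℕ} (h : i < j) : nn i < nn j :=
  strictMono_nat_of_lt_succ nn_lt h

/-- **S14 (Stage)** Proof. S13, S11 give `(E J, B J)`; residuals at `A J` of the new itinerary: for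
`j < J` changed by at most `10 * 2^(-19 (mm (J-1) - nn J)) ≤ 2^(-120 nn J)` (S7', `decay`); for
`j = J` at most `3 Sv ≤ 3 * 2^(-120 nn J)` (`node_resid`, `Sv_bounds`). S8 with `ς_i` = the shifted
new itinerary at the last junction `j ≤ J` with `j % 8 = i`, resp. the root word if there is none:
`A (J+1)`, `dist ≤ 6/2^(120 nn J)`. For `j ≤ J - 8` the residual changes by at most
`2^(-120 nn J) + 2 * 8/2^(120 nn J) ≤ 64/2^(120 nn J)`. -/
theorem stage {F : Fam} {u : ℕ → List Pl} (hu : ∀ j, (u j).length ≤ j)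
    (hu2 : ∀ j, AdmL (u j)) {J : ℕ} {E : ℕ → List KA} {B : ℕ → List KB}
    {A : ℕ → Fin 8 → ℝ} (hI : Inv F u J E B A) :
    ∃ (e : List KA) (β : List KB) (α : Fin 8 → ℝ), Inv F u (J + 1) (Function.update E J e)
      (Function.update B J β) (Function.update A (J + 1) α) := by
  have hcube : Cube (A J) := hI.cube' le_rfl
  -- the parent
  set L : ℕ := if 8 ≤ J then nn (par J) else 13 with hL
  have hN0 := parent_node hu hu2 hI
  set PE : List KA := if 8 ≤ J then E (par J) else List.replicate 13 estar with hPE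
  set PB : List KB := if 8 ≤ J then B (par J) else List.replicate 78 mid with hPB
  have hlen : PE.length = L := by
    by_cases h8 : 8 ≤ J
    · rw [hPE, hL, if_pos h8, if_pos h8]
      have := par_le h8
      exact hI.lenE _ (by omega)
    · rw [hPE, hL, if_neg h8, if_neg h8, List.length_replicate]
  have hLlt : L < nn J := by
    by_cases h8 : 8 ≤ J
    · rw [hL, if_pos h8]
      have h1 := par_le h8
      exact stage_nn (by omega)
    · rw [hL, if_neg h8]
      have := nn_ge J
      omega
  obtain ⟨e, β, hpe, hpβ, he, hside, hnb, hN⟩ := sieve_iter F hcube hN0 (sd J) (n' := nn J)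
    (by rw [hlen]; exact hLlt)
  rw [hlen] at hside hnb
  have hβ : β.length = 6 * nn J := by rw [hN.len, he]
  obtain ⟨α, hα, hαc, hroot, hzero⟩ := new_par hu hu2 hI he hN
  set E' := Function.update E J e with hE'
  set B' := Function.update B J β with hB'
  set A' := Function.update A (J + 1) α with hA'
  have hEJ : E' J = e := Function.update_self ..
  have hBJ : B' J = β := Function.update_self ..
  have hAJ1 : A' (J + 1) = α := Function.update_self ..
  have hEj : ∀ j < J, E' j = E j := fun j hj => Function.update_of_ne hj.ne _ _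
  have hBj : ∀ j < J, B' j = B j := fun j hj => Function.update_of_ne hj.ne _ _
  have hAj : ∀ j ≤ J, A' j = A j := fun j hj =>
    Function.update_of_ne (Nat.lt_succ_of_le hj).ne _ _
  have hpos : (0 : ℝ) < 2 ^ (120 * nn J) := by positivity
  have hadm : Adm (symOf (itin E' B' u (J + 1))) := by
    refine itin_adm' _ _ u hu hu2 fun j hj => ?_
    rcases (Nat.lt_succ_iff.1 hj).eq_or_lt with rfl | hlt
    · rw [hBJ]
      exact hβ
    · rw [hBj j hlt]
      exact hI.lenB j hlt
  refine ⟨e, β, α, ?_⟩
  change Inv F u (J + 1) E' B' A'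
  refine { lenE := ?_, lenB := ?_, A0 := ?_, step := ?_, root := ?_, old := ?_, rlo := ?_,
           rhi := ?_, treeE := ?_, treeB := ?_, treeS := ?_, nbot := ?_ }
  · intro j hj
    rcases (Nat.lt_succ_iff.1 hj).eq_or_lt with rfl | hlt
    · rw [hEJ]
      exact he
    · rw [hEj j hlt]
      exact hI.lenE j hlt
  · intro j hj
    rcases (Nat.lt_succ_iff.1 hj).eq_or_lt with rfl | hlt
    · rw [hBJ]
      exact hβ
    · rw [hBj j hlt]
      exact hI.lenB j hlt
  · intro i
    rw [hAj 0 (Nat.zero_le _)]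
    exact hI.A0 i
  · intro j hj
    rcases (Nat.lt_succ_iff.1 hj).eq_or_lt with rfl | hlt
    · rw [hAJ1, hAj j le_rfl]
      exact hα
    · rw [hAj j hlt.le, hAj (j + 1) hlt]
      exact hI.step j hlt
  · intro i hi
    rw [hAJ1]
    exact hroot i hi
  · intro j hj
    rw [hAJ1]
    rcases Nat.lt_or_ge J (j + 8) with h8 | h8
    · rw [hzero j (Nat.lt_succ_iff.1 hj) h8, abs_zero]
      exact Finset.sum_nonneg fun k _ => by positivity
    · have hjJ : j < J := by omega
      rw [Finset.sum_Ico_succ_top h8]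
      have h1 := hI.old j hjJ
      have h2 := new_old hu hu2 hcube hI.lenB e hβ hjJ (F := F) (E := E)
      have h3 : (symOf (itin E' B' u (J + 1))) (TT j) = .d (fo j) := by
        show (itin E' B' u (J + 1) (TT j)).sym = .d (fo j)
        rw [itin_fold _ _ u hu hj]
        rfl
      have h4 := Phi_par F hαc hcube hadm h3
      have h5 : |α (fo j) - A J (fo j)| ≤ 8 / 2 ^ (120 * nn J) := by
        rw [← Real.dist_eq]
        exact (dist_le_pi_dist α (A J) (fo j)).trans hα
      have h6 : 4 * eps * dist α (A J) ≤ 1 * (8 / 2 ^ (120 * nn J)) := by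
        refine mul_le_mul ?_ hα dist_nonneg zero_le_one
        have h6' : (4 : ℝ) ≤ 2 ^ 1000 := by
          calc (4 : ℝ) = 2 ^ 2 := by norm_num
            _ ≤ 2 ^ 1000 := pow_le_pow_right₀ (by norm_num) (by norm_num)
        unfold eps
        rw [mul_one_div, div_le_one (by positivity)]
        exact h6'
      have h7 : (64 : ℝ) / 2 ^ (120 * nn J) = 1 / 2 ^ (120 * nn J) + 2 * (8 / 2 ^ (120 * nn J)) +
          47 / 2 ^ (120 * nn J) := by
        field_simp
        norm_num
      have h8 : (0 : ℝ) ≤ 47 / 2 ^ (120 * nn J) := by positivity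
      rw [h7]
      rw [abs_le] at h1 h2 h4 h5 ⊢
      constructor
      · linarith [h1.1, h2.1, h4.1, h5.1]
      · linarith [h1.2, h2.2, h4.2, h5.2]
  · intro j hj
    rcases (Nat.lt_succ_iff.1 hj).eq_or_lt with rfl | hlt
    · rw [hAj j le_rfl, hEJ, hBJ]
      exact hN.Xlo
    · rw [hAj j hlt.le, hEj j hlt, hBj j hlt]
      exact hI.rlo j hlt
  · intro j hj
    rcases (Nat.lt_succ_iff.1 hj).eq_or_lt with rfl | hlt
    · rw [hAj j le_rfl, hEJ, hBJ]
      exact hN.Xhi
    · rw [hAj j hlt.le, hEj j hlt, hBj j hlt]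
      exact hI.rhi j hlt
  · intro j hj h8
    have hp := par_le h8
    rcases (Nat.lt_succ_iff.1 hj).eq_or_lt with rfl | hlt
    · rw [hEJ, hEj _ (by omega)]
      rw [hPE, if_pos h8] at hpe
      exact hpe
    · rw [hEj j hlt, hEj _ (by omega)]
      exact hI.treeE j hlt h8
  · intro j hj h8
    have hp := par_le h8
    rcases (Nat.lt_succ_iff.1 hj).eq_or_lt with rfl | hlt
    · rw [hBJ, hBj _ (by omega)]
      rw [hPB, if_pos h8] at hpβ
      exact hpβ
    · rw [hBj j hlt, hBj _ (by omega)]
      exact hI.treeB j hlt h8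
  · intro j hj h8
    rcases (Nat.lt_succ_iff.1 hj).eq_or_lt with rfl | hlt
    · rw [hEJ]
      rw [hL, if_pos h8] at hside
      exact hside
    · rw [hEj j hlt]
      exact hI.treeS j hlt h8
  · intro j hj k hk hk'
    rcases (Nat.lt_succ_iff.1 hj).eq_or_lt with rfl | hlt
    · rw [hBJ]
      exact hnb k hk hk'
    · rw [hBj j hlt]
      exact hI.nbot j hlt k hk hk'

end Pool.Agent.WildW
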