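import Pool.Agent.Lib.MP_3dbc4a_an_WS.Root
import Pool.Agent.Lib.MP_3dbc4a_an_WS.Stage

/-!
# MP_3dbc4a_an, project W, block S: all stages
-/

set_option autoImplicit false

open Filter Set
open scoped Topology

namespace Pool.Agent.WildW

/-- the invariant only depends on the data used -/
theorem Inv.congr {F : Fam} {u : ℕ → List Pl} {J : ℕ} {E E' : ℕ → List KA} {B B' : ℕ → List KB}
    {A A' : ℕ → Fin 8 → ℝ} (hI : Inv F u J E B A) (hE : ∀ j < J, E' j = E j)
    (hB : ∀ j < J, B' j = B j) (hA : ∀ j ≤ J, A' j = A j) : Inv F u J E' B' A' where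
  lenE j hj := by
    rw [hE j hj]
    exact hI.lenE j hj
  lenB j hj := by
    rw [hB j hj]
    exact hI.lenB j hj
  A0 i := by
    rw [hA 0 (Nat.zero_le J)]
    exact hI.A0 i
  step j hj := by
    rw [hA j hj.le, hA (j + 1) hj]
    exact hI.step j hj
  root i hi := by
    rw [hA J le_rfl]
    exact hI.root i hi
  old j hj := by
    rw [hA J le_rfl, itin_congr u hE hB]
    exact hI.old j hj
  rlo j hj := by
    rw [hA j hj.le, hE j hj, hB j hj]
    exact hI.rlo j hj
  rhi j hj := by
    rw [hA j hj.le, hE j hj, hB j hj]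
    exact hI.rhi j hj
  treeE j hj h8 := by
    have hp := par_le h8
    rw [hE j hj, hE (par j) (by omega)]
    exact hI.treeE j hj h8
  treeB j hj h8 := by
    have hp := par_le h8
    rw [hB j hj, hB (par j) (by omega)]
    exact hI.treeB j hj h8
  treeS j hj h8 := by
    rw [hE j hj]
    exact hI.treeS j hj h8
  nbot j hj k hk hk' := by
    rw [hB j hj]
    exact hI.nbot j hj k hk hk'

/-- the start -/
theorem inv_zero (F : Fam) (u : ℕ → List Pl) (E : ℕ → List KA) (B : ℕ → List KB) :
    ∃ A : ℕ → Fin 8 → ℝ, Inv F u 0 E B A := by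
  obtain ⟨a, ha, ha'⟩ := root_par F
  refine ⟨fun _ => a, ?_⟩
  exact
    { lenE := fun j hj => absurd hj (Nat.not_lt_zero j)
      lenB := fun j hj => absurd hj (Nat.not_lt_zero j)
      A0 := ha
      step := fun j hj => absurd hj (Nat.not_lt_zero j)
      root := fun i _ => ha' i
      old := fun j hj => absurd hj (Nat.not_lt_zero j)
      rlo := fun j hj => absurd hj (Nat.not_lt_zero j)
      rhi := fun j hj => absurd hj (Nat.not_lt_zero j)
      treeE := fun j hj => absurd hj (Nat.not_lt_zero j)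
      treeB := fun j hj => absurd hj (Nat.not_lt_zero j)
      treeS := fun j hj => absurd hj (Nat.not_lt_zero j)
      nbot := fun j hj => absurd hj (Nat.not_lt_zero j) }

/-- the states after `J` stages -/
private def ASt (F : Fam) (u : ℕ → List Pl) (J : ℕ) : Type :=
  {s : (ℕ → List KA) × (ℕ → List KB) × (ℕ → Fin 8 → ℝ) // Inv F u J s.1 s.2.1 s.2.2}

/-- **S15** infinite sequences (dependent choice). -/
theorem all_stages (F : Fam) {u : ℕ → List Pl} (hu : ∀ j, (u j).length ≤ j)
    (hu2 : ∀ j, AdmL (u j)) : ∃ (E : ℕ → List KA) (B : ℕ → List KB) (A : ℕ → Fin 8 → ℝ),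
      ∀ J, Inv F u J E B A := by
  have key : ∀ (J : ℕ) (s : ASt F u J), ∃ t : ASt F u (J + 1),
      (∀ j < J, t.1.1 j = s.1.1 j) ∧ (∀ j < J, t.1.2.1 j = s.1.2.1 j) ∧
      ∀ j ≤ J, t.1.2.2 j = s.1.2.2 j := by
    intro J s
    obtain ⟨e, β, α, h⟩ := stage hu hu2 s.2
    refine ⟨⟨(_, _, _), h⟩, fun j hj => ?_, fun j hj => ?_, fun j hj => ?_⟩
    · exact Function.update_of_ne hj.ne _ _
    · exact Function.update_of_ne hj.ne _ _
    · exact Function.update_of_ne (by omega) _ _
  choose next hE hB hA using key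
  obtain ⟨A₀, h₀⟩ := inv_zero F u (fun _ => []) fun _ => []
  let st : ∀ J, ASt F u J := fun J => Nat.rec ⟨(_, _, _), h₀⟩ next J
  have hst : ∀ J, st (J + 1) = next J (st J) := fun J => rfl
  have mE : ∀ J K, J ≤ K → ∀ j < J, (st K).1.1 j = (st J).1.1 j := by
    intro J K hJK
    induction K, hJK using Nat.le_induction with
    | base => exact fun j _ => rfl
    | succ K hK ih =>
      intro j hj
      rw [hst, hE K (st K) j (lt_of_lt_of_le hj hK), ih j hj]
  have mB : ∀ J K, J ≤ K → ∀ j < J, (st K).1.2.1 j = (st J).1.2.1 j := by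
    intro J K hJK
    induction K, hJK using Nat.le_induction with
    | base => exact fun j _ => rfl
    | succ K hK ih =>
      intro j hj
      rw [hst, hB K (st K) j (lt_of_lt_of_le hj hK), ih j hj]
  have mA : ∀ J K, J ≤ K → ∀ j ≤ J, (st K).1.2.2 j = (st J).1.2.2 j := by
    intro J K hJK
    induction K, hJK using Nat.le_induction with
    | base => exact fun j _ => rfl
    | succ K hK ih =>
      intro j hj
      rw [hst, hA K (st K) j (hj.trans hK), ih j hj]
  refine ⟨fun j => (st (j + 1)).1.1 j, fun j => (st (j + 1)).1.2.1 j, fun j => (st j).1.2.2 j,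
    fun J => (st J).2.congr (fun j hj => ?_) (fun j hj => ?_) fun j hj => ?_⟩
  · exact (mE (j + 1) J hj j (Nat.lt_succ_self j)).symm
  · exact (mB (j + 1) J hj j (Nat.lt_succ_self j)).symm
  · exact (mA j J hj j le_rfl).symm

end Pool.Agent.WildW
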