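import Pool.Agent.Lib.MP_3dbc4a_an_WO.ODefs

/-!
# MP_3dbc4a_an, project W, block S: numbers and the itinerary (definitions)
-/

set_option autoImplicit false

open Filter Set
open scoped Topology

namespace Pool.Agent.WildW

/-- exponents: `δ_j = 2^-(dd j)` -/
def dd : ℕ → ℕ
  | 0 => 20000
  | j + 1 => 3 * dd j / 2

/-- number of plain letters between the folds `j` and `j + 1` -/
def mm (j : ℕ) : ℕ := dd j / 50

/-- length of the past word of the junction `j` -/
def nn (j : ℕ) : ℕ := if j < 8 then 14 + j else dd (j - 8) / 60 + 14 + j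

/-- fold times -/
def TT : ℕ → ℤ
  | 0 => 0
  | j + 1 => TT j + mm j + 1

/-- parent of the junction `j ≥ 8`: `j = 8 r + i`, parent `8 (unpair r).1 + i` -/
def par (j : ℕ) : ℕ := 8 * (Nat.unpair (j / 8)).1 + j % 8

/-- side of the first new letter of the junction `j`: parity of `(unpair r).2` -/
def sd (j : ℕ) : Bool := decide ((Nat.unpair (j / 8)).2 % 2 = 1)

/-- admissible plain word: `K_2` letters are followed by `K_2` letters or `g` -/
def AdmL (w : List Pl) : Prop :=
  ∀ n c c' j, w[n]? = some c → w[n + 1]? = some c' → c = .f j → (∃ j', c' = .f j') ∨ c' = .g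

/-- the letters after a fold, before the filler -/
def tailL (B : List KB) (u : List Pl) : List Pl :=
  B.map Pl.f ++ [Pl.f mid, Pl.g] ++ u ++ [Pl.g]

/-- the itinerary with `J` folds (junctions `0 .. J-1`); the last one is followed by its tail and
`estar` forever -/
def itin (E : ℕ → List KA) (B : ℕ → List KB) (u : ℕ → List Pl) : ℕ → ℤ → Lt
  | 0, _ => .p (.e estar)
  | J + 1, n =>
    if n < TT J - nn J then itin E B u J n
    else if n < TT J then .p (.e (extE (E J) (TT J - 1 - n).toNat))
    else if n = TT J then .d ⟨J % 8, Nat.mod_lt _ (by norm_num)⟩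
    else .p ((tailL (B J) (u J)).getD (n - TT J - 1).toNat (.e estar))

/-- the full itinerary -/
def itinI (E : ℕ → List KA) (B : ℕ → List KB) (u : ℕ → List Pl) : ℤ → Lt :=
  fun n => itin E B u (n.toNat + 2) n

/-- the index of the fold of the junction `j` -/
def fo (j : ℕ) : Fin 8 := ⟨j % 8, Nat.mod_lt _ (by norm_num)⟩

end Pool.Agent.WildW
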