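import Pool.Agent.Lib.MP_3dbc4a_an_WS.NumA

/-!
# MP_3dbc4a_an, project W, block S: the invariant
-/

set_option autoImplicit false

open Filter Set
open scoped Topology

namespace Pool.Agent.WildW

/-- the invariant after `J` junctions; `A j` is the parameter at which the words of the junction `j`
are chosen, `A J` the current parameter -/
structure Inv (F : Fam) (u : ℕ → List Pl) (J : ℕ) (E : ℕ → List KA) (B : ℕ → List KB)
    (A : ℕ → Fin 8 → ℝ) : Prop where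
  lenE : ∀ j < J, (E j).length = nn j
  lenB : ∀ j < J, (B j).length = 6 * nn j
  A0 : ∀ i, |A 0 i| ≤ 1 / 2 ^ 17
  step : ∀ j < J, dist (A (j + 1)) (A j) ≤ 8 / 2 ^ (120 * nn j)
  root : ∀ i : Fin 8, J ≤ (i : ℕ) → Rr F (A J) i (fun _ => estar) (fun _ => mid) = 0
  old : ∀ j < J, |Phi F (A J) (symOf (itin E B u J)) (TT j)| ≤
    ∑ k ∈ Finset.Ico (j + 8) J, 64 / 2 ^ (120 * nn k)
  rlo : ∀ j < J, 149 * Wv F (A j) (fo j) (E j) (B j) ≤ b * Sv F (A j) (fo j) (E j) (B j)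
  rhi : ∀ j < J, b * Sv F (A j) (fo j) (E j) (B j) ≤ 301 * Wv F (A j) (fo j) (E j) (B j)
  treeE : ∀ j < J, 8 ≤ j → E (par j) <+: E j
  treeB : ∀ j < J, 8 ≤ j → B (par j) <+: B j
  treeS : ∀ j < J, 8 ≤ j → side (extE (E j) (nn (par j))) = sd j
  nbot : ∀ j < J, ∀ k, (if 8 ≤ j then nn (par j) else 13) ≤ k → k < nn j →
    ∃ y ∈ ((B j).drop (6 * k)).take 6, y ≠ bot

private theorem invD_nn (l i : ℕ) : nn l + i ≤ nn (l + i) := by
  induction i with
  | zero => exact le_rfl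
  | succ i ih =>
    have h := nn_lt (l + i)
    have h1 : l + (i + 1) = l + i + 1 := rfl
    rw [h1]
    omega

/-- geometric sum: `nn` is strictly increasing, so the terms decrease by factors `≤ 2^-120` -/
theorem sum_tail (q : ℝ) (hq : 0 ≤ q) (l J : ℕ) :
    ∑ k ∈ Finset.Ico l J, q / 2 ^ (120 * nn k) ≤ 2 * q / 2 ^ (120 * nn l) := by
  rw [Finset.sum_Ico_eq_sum_range]
  have h1 : ∀ i : ℕ, q / 2 ^ (120 * nn (l + i)) ≤ q / 2 ^ (120 * nn l) * (1 / 2 : ℝ) ^ i := by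
    intro i
    have h2 : (2 : ℝ) ^ (120 * nn l) * 2 ^ i ≤ 2 ^ (120 * nn (l + i)) := by
      rw [← pow_add]
      have h3 := invD_nn l i
      exact pow_le_pow_right₀ (by norm_num) (by omega)
    have h4 : q / 2 ^ (120 * nn l) * (1 / 2 : ℝ) ^ i = q / (2 ^ (120 * nn l) * 2 ^ i) := by
      rw [one_div, inv_pow, div_mul_eq_div_div]
      rfl
    rw [h4]
    exact div_le_div_of_nonneg_left hq (by positivity) h2
  calc ∑ i ∈ Finset.range (J - l), q / 2 ^ (120 * nn (l + i))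
      ≤ ∑ i ∈ Finset.range (J - l), q / 2 ^ (120 * nn l) * (1 / 2 : ℝ) ^ i :=
        Finset.sum_le_sum fun i _ => h1 i
    _ = q / 2 ^ (120 * nn l) * ∑ i ∈ Finset.range (J - l), (1 / 2 : ℝ) ^ i := by
        rw [Finset.mul_sum]
    _ ≤ q / 2 ^ (120 * nn l) * 2 :=
        mul_le_mul_of_nonneg_left (sum_geometric_two_le _) (by positivity)
    _ = 2 * q / 2 ^ (120 * nn l) := by ring

theorem Inv.dist_le {F : Fam} {u : ℕ → List Pl} {J : ℕ} {E : ℕ → List KA} {B : ℕ → List KB}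
    {A : ℕ → Fin 8 → ℝ} (hI : Inv F u J E B A) {l j : ℕ} (hl : l ≤ j) (hj : j ≤ J) :
    dist (A l) (A j) ≤ 16 / 2 ^ (120 * nn l) := by
  refine (dist_le_Ico_sum_dist A hl).trans ?_
  have h1 := sum_tail 8 (by norm_num) l j
  refine le_trans (Finset.sum_le_sum fun k hk => ?_) (h1.trans_eq (by norm_num))
  rw [dist_comm]
  exact hI.step k ((Finset.mem_Ico.1 hk).2.trans_le hj)

/-- **S12** the parameters stay in the cube: `|A j i| ≤ 1/16`. -/
theorem Inv.cube {F : Fam} {u : ℕ → List Pl} {J : ℕ} {E : ℕ → List KA} {B : ℕ → List KB}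
    {A : ℕ → Fin 8 → ℝ} (hI : Inv F u J E B A) {j : ℕ} (hj : j ≤ J) (i : Fin 8) :
    |A j i| ≤ 1 / 16 := by
  have h1 := hI.dist_le (Nat.zero_le j) hj
  have h2 : dist (A 0 i) (A j i) ≤ dist (A 0) (A j) := dist_le_pi_dist _ _ i
  have h3 := hI.A0 i
  have h4 : (16 : ℝ) / 2 ^ (120 * nn 0) ≤ 16 / 2 ^ 10 := by
    have h5 : (2 : ℝ) ^ 10 ≤ 2 ^ (120 * nn 0) := by
      have h6 := nn_ge 0
      exact pow_le_pow_right₀ (by norm_num) (by omega)
    exact div_le_div_of_nonneg_left (by norm_num) (by positivity) h5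
  rw [Real.dist_eq, abs_sub_comm] at h2
  have h5 : |A j i| ≤ |A j i - A 0 i| + |A 0 i| := by
    have h6 := abs_add_le (A j i - A 0 i) (A 0 i)
    rwa [sub_add_cancel] at h6
  have h7 : (16 : ℝ) / 2 ^ 10 + 1 / 2 ^ 17 ≤ 1 / 16 := by norm_num
  linarith

theorem Inv.cube' {F : Fam} {u : ℕ → List Pl} {J : ℕ} {E : ℕ → List KA} {B : ℕ → List KB}
    {A : ℕ → Fin 8 → ℝ} (hI : Inv F u J E B A) {j : ℕ} (hj : j ≤ J) : Cube (A j) := by
  intro i
  have h := hI.cube hj i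
  linarith

end Pool.Agent.WildW
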