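import Pool.Agent.Lib.MP_3dbc4a_an_WS.NumC

/-!
# MP_3dbc4a_an, project W, block S: the letters of the itinerary
-/

set_option autoImplicit false

open Filter Set
open scoped Topology

namespace Pool.Agent.WildW

/-- the itinerary with one more junction, far to the left -/
private theorem Itin_lt (E : ℕ → List KA) (B : ℕ → List KB) (u : ℕ → List Pl) {J : ℕ} {n : ℤ}
    (hn : n < TT J - nn J) : itin E B u (J + 1) n = itin E B u J n := by
  rw [itin, if_pos hn]

/-- the past word of the last junction -/
private theorem Itin_past (E : ℕ → List KA) (B : ℕ → List KB) (u : ℕ → List Pl) {J : ℕ} {n : ℤ}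
    (h1 : TT J - nn J ≤ n) (h2 : n < TT J) :
    itin E B u (J + 1) n = .p (.e (extE (E J) (TT J - 1 - n).toNat)) := by
  rw [itin, if_neg (not_lt.2 h1), if_pos h2]

/-- the last fold -/
private theorem Itin_fold (E : ℕ → List KA) (B : ℕ → List KB) (u : ℕ → List Pl) (J : ℕ) :
    itin E B u (J + 1) (TT J) = .d (fo J) := by
  have h1 : ¬ TT J < TT J - nn J := by omega
  rw [itin, if_neg h1, if_neg (lt_irrefl _), if_pos rfl]
  rfl

/-- the tail of the last junction -/
private theorem Itin_tail (E : ℕ → List KA) (B : ℕ → List KB) (u : ℕ → List Pl) {J : ℕ} {n : ℤ}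
    (h : TT J < n) :
    itin E B u (J + 1) n = .p ((tailL (B J) (u J)).getD (n - TT J - 1).toNat (.e estar)) := by
  have h1 : ¬ n < TT J - nn J := by omega
  rw [itin, if_neg h1, if_neg (not_lt.2 h.le), if_neg h.ne']

/-- **S4** the finite itineraries agree with the full one before `TT J - nn J` (`1 ≤ J`), and the
itinerary depends only on the words of the junctions used. -/
theorem itin_stab (E : ℕ → List KA) (B : ℕ → List KB) (u : ℕ → List Pl) {J J' : ℕ}
    (hJ : J ≤ J') {n : ℤ} (hn : n < TT J - nn J) : itin E B u J' n = itin E B u J n := by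
  induction J', hJ using Nat.le_induction with
  | base => rfl
  | succ K hK ih =>
    rw [Itin_lt E B u (lt_of_lt_of_le hn (TT_sub_mono hK)), ih]

theorem itinI_eq (E : ℕ → List KA) (B : ℕ → List KB) (u : ℕ → List Pl) {J : ℕ} {n : ℤ}
    (hn : n < TT J - nn J) : itinI E B u n = itin E B u J n := by
  unfold itinI
  rcases le_total J (n.toNat + 2) with h | h
  · exact itin_stab E B u h hn
  · exact (itin_stab E B u h (lt_of_le_of_lt (Int.self_le_toNat n) (TT_large n.toNat))).symm

theorem itin_congr {E E' : ℕ → List KA} {B B' : ℕ → List KB} (u : ℕ → List Pl) {J : ℕ}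
    (hE : ∀ j < J, E j = E' j) (hB : ∀ j < J, B j = B' j) : itin E B u J = itin E' B' u J := by
  induction J with
  | zero =>
    funext n
    rw [itin, itin]
  | succ J ih =>
    funext n
    rw [itin, itin, ih (fun j hj => hE j (Nat.lt_succ_of_lt hj))
      (fun j hj => hB j (Nat.lt_succ_of_lt hj)), hE J (Nat.lt_succ_self J),
      hB J (Nat.lt_succ_self J)]

/-- **S5** the letters around the fold `j < J` (`|E j| = nn j`, `|B j| = 6 nn j`, `|u j| ≤ j`). -/
theorem itin_fold (E : ℕ → List KA) (B : ℕ → List KB) (u : ℕ → List Pl)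
    (hu : ∀ j, (u j).length ≤ j) {j J : ℕ} (hj : j < J) :
    itin E B u J (TT j) = .d (fo j) := by
  have h := TT_gap j
  rw [itin_stab E B u (J := j + 1) hj (by omega), Itin_fold]

theorem itin_past (E : ℕ → List KA) (B : ℕ → List KB) (u : ℕ → List Pl)
    (hu : ∀ j, (u j).length ≤ j) {j J k : ℕ} (hj : j < J) (hk : k < nn j) :
    itin E B u J (TT j - k - 1) = .p (.e (extE (E j) k)) := by
  have h := TT_gap j
  rw [itin_stab E B u (J := j + 1) hj (by omega), Itin_past E B u (by omega) (by omega)]
  have h2 : (TT j - 1 - (TT j - k - 1)).toNat = k := by omega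
  rw [h2]

/-- the letters after the fold `j`, up to the past word of the next junction (always, if `j` is the
last junction) -/
theorem itin_tail (E : ℕ → List KA) (B : ℕ → List KB) (u : ℕ → List Pl)
    (hu : ∀ j, (u j).length ≤ j) {j J k : ℕ} (hj : j < J)
    (hk : (k : ℤ) + 1 + nn (j + 1) ≤ mm j ∨ J = j + 1) :
    itin E B u J (TT j + k + 1) = .p ((tailL (B j) (u j)).getD k (.e estar)) := by
  have h1 : itin E B u J (TT j + k + 1) = itin E B u (j + 1) (TT j + k + 1) := by
    rcases hk with hk | rfl
    · refine itin_stab E B u (J := j + 1) hj ?_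
      have h := TT_succS j
      omega
    · rfl
  have h2 : (TT j + k + 1 - TT j - 1).toNat = k := by omega
  rw [h1, Itin_tail E B u (by omega), h2]

/-- left of the first past word everything is `estar` -/
theorem itin_neg (E : ℕ → List KA) (B : ℕ → List KB) (u : ℕ → List Pl) {J : ℕ} {n : ℤ}
    (hn : n < -(nn 0 : ℤ)) : itin E B u J n = .p (.e estar) := by
  have h0 : n < TT 0 - nn 0 := by
    have : TT 0 = 0 := rfl
    omega
  rw [itin_stab E B u (Nat.zero_le J) h0, itin]

end Pool.Agent.WildW
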