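import Pool.Agent.Lib.MP_3dbc4a_an_WO.RatioPar
import Pool.Agent.Lib.MP_3dbc4a_an_WO.Renode
import Pool.Agent.Lib.MP_3dbc4a_an_WO.Root
import Pool.Agent.Lib.MP_3dbc4a_an_WO.SvBd
import Pool.Agent.Lib.MP_3dbc4a_an_WS.InvD
import Pool.Agent.Lib.MP_3dbc4a_an_WS.ItinAdm
import Pool.Agent.Lib.MP_3dbc4a_an_WS.NumB
import Pool.Agent.Lib.MP_3dbc4a_an_WS.Res

/-!
# MP_3dbc4a_an, project W, block S: the node of the parent
-/

set_option autoImplicit false

open Filter Set
open scoped Topology

namespace Pool.Agent.WildW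

private theorem tail_get (B : List KB) (u : List Pl) {n : ℕ} (hn : n ≤ B.length) :
    (tailL B u).getD n (.e estar) = Pl.f (extB B mid n) := by
  unfold tailL extB
  rw [List.append_assoc, List.append_assoc]
  rcases Nat.lt_or_ge n B.length with h | h
  · rw [List.getD_append _ _ _ _ (by simpa using h), List.getD_eq_getElem _ _ (by simpa using h),
      List.getD_eq_getElem _ _ h, List.getElem_map]
  · have h1 : n = B.length := le_antisymm hn h
    subst h1
    rw [List.getD_append_right _ _ _ _ (by simp), List.getD_eq_default _ _ le_rfl]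
    simp

private theorem Sv_nonneg (F : Fam) {a : Fin 8 → ℝ} (ha : Cube a) (i : Fin 8) (E : List KA)
    (B : List KB) : 0 ≤ Sv F a i E B :=
  le_trans (by positivity) (Sv_bounds F ha i E B).1

private theorem b_nonneg : 0 ≤ b := by
  unfold b
  positivity

private theorem small_num {n : ℕ} (hn : 14 ≤ n) :
    (2 * 64 : ℝ) / 2 ^ (240 * n) ≤ 1 / 10 * (1 / 2 ^ 21) ^ (6 * n) := by
  have h1 : ((1 : ℝ) / 2 ^ 21) ^ (6 * n) = 1 / 2 ^ (126 * n) := by
    rw [div_pow, one_pow, ← pow_mul]
    congr 2
    omega
  have h2 : (2 : ℝ) ^ (240 * n) = 2 ^ (126 * n) * 2 ^ (114 * n) := by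
    rw [← pow_add]
    congr 1
    omega
  have h3 : (2 : ℝ) ^ 11 ≤ 2 ^ (114 * n) := pow_le_pow_right₀ (by norm_num) (by omega)
  rw [h1, h2, div_le_iff₀ (by positivity)]
  have h4 : (1 : ℝ) / 10 * (1 / 2 ^ (126 * n)) * (2 ^ (126 * n) * 2 ^ (114 * n)) =
      1 / 10 * 2 ^ (114 * n) := by
    field_simp
  rw [h4]
  linarith

private theorem dist_num {n : ℕ} (hn : 14 ≤ n) :
    ((6 * n : ℕ) : ℝ) * (16 / 2 ^ (120 * n)) ≤ 1 := by
  have h1 : (n : ℝ) ≤ 2 ^ n := by
    exact_mod_cast (Nat.lt_two_pow_self (n := n)).le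
  have h2 : (2 : ℝ) ^ (120 * n) = 2 ^ n * 2 ^ (119 * n) := by
    rw [← pow_add]
    congr 1
    omega
  have h3 : (2 : ℝ) ^ 7 ≤ 2 ^ (119 * n) := pow_le_pow_right₀ (by norm_num) (by omega)
  rw [mul_div_assoc', div_le_one (by positivity), h2]
  push_cast
  calc (6 * (n : ℝ)) * 16 = n * 96 := by ring
    _ ≤ 2 ^ n * 2 ^ (119 * n) := by
        refine mul_le_mul h1 (le_trans (by norm_num) h3) (by norm_num) (by positivity)

/-- **S13** the node of the parent (for `J < 8` the root words) at the parameter `A J`.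
Proof. `J < 8`: `renode` for the word `sf i estar^∞ mid^∞` (residual `0` by `root`) with `root_ratio`.
`J ≥ 8`, `l = par J`: `renode` for the word `itin J` shifted by `TT l`:
`|Φ| ≤ ∑_{k ≥ l+8} 64/2^(120 nn k) ≤ 128/2^(120 nn (l+8)) ≤ 128/2^(240 nn l) ≤ Sv/10`
(`Sv ≥ 2^(-126 nn l)`, `nn l ≥ 14`), ratio by `ratio_par` (`dist (A l) (A J) ≤ 16/2^(120 nn l)`). -/
theorem parent_node {F : Fam} {u : ℕ → List Pl} (hu : ∀ j, (u j).length ≤ j)
    (hu2 : ∀ j, AdmL (u j)) {J : ℕ} {E : ℕ → List KA} {B : ℕ → List KB}
    {A : ℕ → Fin 8 → ℝ} (hI : Inv F u J E B A) :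
    Node F (A J) (fo J) (if 8 ≤ J then E (par J) else List.replicate 13 estar)
      (if 8 ≤ J then B (par J) else List.replicate 78 mid) 140 320 := by
  have hc : Cube (A J) := hI.cube' le_rfl
  by_cases hJ : 8 ≤ J
  · rw [if_pos hJ, if_pos hJ]
    have hle := par_le hJ
    have hfo : fo (par J) = fo J := Fin.ext (par_mod J)
    have hl : par J < J := by omega
    have hcl : Cube (A (par J)) := hI.cube' hl.le
    have hE := hI.lenE _ hl
    have hB := hI.lenB _ hl
    have hn := nn_ge (par J)
    have hn' : 14 ≤ nn (par J) := by omega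
    have hadm : Adm (symOf (itin E B u J)) := itin_adm' E B u hu hu2 hI.lenB
    have hlen : (B (par J)).length = 6 * (E (par J)).length := by rw [hE, hB]
    have hrat := ratio_par F hcl hc (i := fo J) hlen
      (hfo ▸ hI.rlo _ hl) (hfo ▸ hI.rhi _ hl) (by
        rw [hB]
        refine le_trans ?_ (dist_num hn')
        exact mul_le_mul_of_nonneg_left (hI.dist_le hl.le le_rfl) (by positivity))
    refine renode F hc (s := shiftW (itin E B u J) (TT (par J))) ?_ ?_ ?_ ?_ hlen ?_ hrat.1 hrat.2
    · exact adm_shiftS hadm (TT (par J))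
    · have h1 : shiftW (itin E B u J) (TT (par J)) 0 = itin E B u J (TT (par J)) := by
        simp [shiftW]
      rw [h1, itin_fold E B u hu hl, hfo]
    · intro n h1
      rw [hE] at h1
      have h2 : shiftW (itin E B u J) (TT (par J)) (-(n : ℤ) - 1) =
          itin E B u J (TT (par J) - n - 1) := by
        unfold shiftW
        congr 1
        ring
      rw [h2, itin_past E B u hu hl h1]
    · intro n h1
      have h2 : shiftW (itin E B u J) (TT (par J)) (n + 1) =
          itin E B u J (TT (par J) + n + 1) := by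
        unfold shiftW
        congr 1
        ring
      have h3 := fit (par J)
      rw [h2, itin_tail E B u hu hl (Or.inl (by rw [hB] at h1; omega)), tail_get _ _ h1]
    · have h1 : Phi F (A J) (symOf (shiftW (itin E B u J) (TT (par J)))) 0 =
          Phi F (A J) (symOf (itin E B u J)) (TT (par J)) := by
        have h2 := Phi_shift F hc hadm (TT (par J)) 0
        rw [zero_add] at h2
        exact h2
      rw [h1]
      refine (hI.old _ hl).trans ?_
      refine (sum_tail 64 (by norm_num) _ _).trans ?_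
      refine le_trans ?_ ((small_num hn').trans ?_)
      · refine div_le_div_of_nonneg_left (by norm_num) (by positivity) ?_
        refine pow_le_pow_right₀ (by norm_num) ?_
        have h3 := nn_two (par J)
        omega
      · have h3 := (Sv_bounds F hc (fo J) (E (par J)) (B (par J))).1
        rw [hB] at h3
        linarith
  · rw [if_neg hJ, if_neg hJ]
    have hr := root_ratio F hc (fo J)
    have hS := Sv_nonneg F hc (fo J) (List.replicate 13 estar) (List.replicate 78 mid)
    have hbS := mul_nonneg b_nonneg hS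
    refine renode F hc (s := sf (fo J) (fun _ => estar) (fun _ => mid)) (adm_sf _ _ _) ?_ ?_ ?_
      ?_ ?_ ?_ ?_
    · simp [sf]
    · intro n h1
      have h2 : -(n : ℤ) - 1 < 0 := by omega
      have h3 : extE (List.replicate 13 estar) n = estar := by
        unfold extE
        rw [List.getD_eq_getElem _ _ h1, List.getElem_replicate]
      simp only [sf, if_pos h2, h3]
    · intro n h1
      have h2 : ¬ (n : ℤ) + 1 < 0 := by omega
      have h3 : ¬ (n : ℤ) + 1 = 0 := by omega
      have h4 : extB (List.replicate 78 mid) mid n = mid := by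
        unfold extB
        rcases Nat.lt_or_ge n (List.replicate 78 mid).length with h | h
        · rw [List.getD_eq_getElem _ _ h, List.getElem_replicate]
        · rw [List.getD_eq_default _ _ h]
      simp only [sf, if_neg h2, if_neg h3, h4]
    · simp
    · have h1 : Phi F (A J) (symOf (sf (fo J) (fun _ => estar) (fun _ => mid))) 0 = 0 := by
        refine hI.root (fo J) ?_
        have h2 : (fo J : ℕ) = J % 8 := rfl
        omega
      rw [h1, abs_zero]
      positivity
    · linarith [hr.1, hr.2]
    · linarith [hr.1, hr.2]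

end Pool.Agent.WildW
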