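import Pool.Agent.Lib.MP_3dbc4a_an_WO.AdmSf
import Pool.Agent.Lib.MP_3dbc4a_an_WO.Pos
import Pool.Agent.Lib.MP_3dbc4a_an_WS.Solve

/-!
# MP_3dbc4a_an, project W, block S: the root parameters
-/

set_option autoImplicit false

open Filter Set
open scoped Topology

namespace Pool.Agent.WildW

private theorem cube_zero : Cube (0 : Fin 8 → ℝ) := by
  intro i
  simp

private theorem eps_small : eps ≤ 1 / 2 ^ 200 := by
  unfold eps
  gcongr
  · norm_num
  · norm_num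

private theorem root_small (F : Fam) (i : Fin 8) :
    |Phi F 0 (symOf (sf i (fun _ => estar) (fun _ => mid))) 0| ≤ 1 / 2 ^ 18 := by
  have hadm : Adm (symOf (sf i (fun _ => estar) (fun _ => mid))) := adm_sf i _ _
  have hsol := isSol_sol F cube_zero hadm
  have h0 : symOf (sf i (fun _ => estar) (fun _ => mid)) 0 = .d i := by
    simp [symOf, sf, Lt.sym]
  have h1 : symOf (sf i (fun _ => estar) (fun _ => mid)) 1 = .p (.f mid) := by
    simp [symOf, sf, Lt.sym]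
  set s := symOf (sf i (fun _ => estar) (fun _ => mid)) with hs
  have hp := pos_mid F cube_zero hadm h1
  have hm := IsSol.mem F hadm hsol (-1)
  have hW := hsol.foW 0 i h0
  have hx := hsol.fox 0 i h0
  have hr := hsol.rb (0 + 1)
  have ht := hsol.tb (0 - 1)
  have hh := h_pos
  have hh2 := h_hi
  have he := eps_pos
  have he2 := eps_small
  have hWp : xs F 0 s 0 ∈ (Lt.d i).Wp := by
    simp only [Lt.W, Lt.Wp, mem_Icc] at hW ⊢
    constructor
    · linarith [hW.1]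
    · linarith [hW.2]
  have hf0 := F.fo0 0 cube_zero i _ hWp
  have hf1 := F.fo1 0 cube_zero i _ hWp
  have hP1 : |F.P1 0 (xs F 0 s 0)| ≤ 1 / 2 ^ 118 := by
    rw [hx, abs_of_nonneg (mul_nonneg b_pos.le (add_nonneg hr.1 ht.1))]
    have h3 : b * (rs F 0 s (0 + 1) + ts F 0 s (0 - 1)) ≤ b * (1 / 2 ^ 19 + 1 / 2 ^ 19) :=
      mul_le_mul_of_nonneg_left (add_le_add hr.2 ht.2) b_pos.le
    refine h3.trans ?_
    rw [b_eq]
    norm_num
  set z := xs F 0 s 0 - cc i with hz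
  have hz1 : |z| ≤ 1 / 2 ^ 130 := by
    have h4 : |(2 : ℝ) ^ 21 * z| ≤ 1 / 2 ^ 118 + 1 / 2 ^ 200 := by
      have h5 : (2 : ℝ) ^ 21 * z = (F.P1 0 (xs F 0 s 0) + 2 ^ 21 * z) - F.P1 0 (xs F 0 s 0) := by
        ring
      rw [h5]
      refine (abs_sub _ _).trans ?_
      exact (add_le_add (hf1.trans he2) hP1).trans (by norm_num)
    rw [abs_mul, abs_of_pos (by positivity : (0 : ℝ) < 2 ^ 21)] at h4
    have h6 : (1 : ℝ) / 2 ^ 118 + 1 / 2 ^ 200 ≤ 2 ^ 21 * (1 / 2 ^ 130) := by norm_num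
    have h7 := h4.trans h6
    exact le_of_mul_le_mul_left h7 (by positivity)
  have hz2 : (2 : ℝ) ^ 20 * z ^ 2 ≤ 1 / 2 ^ 200 := by
    have h8 : z ^ 2 ≤ (1 / 2 ^ 130) ^ 2 := by
      rw [← sq_abs]
      gcongr
    calc (2 : ℝ) ^ 20 * z ^ 2 ≤ 2 ^ 20 * (1 / 2 ^ 130) ^ 2 := by gcongr
      _ ≤ 1 / 2 ^ 200 := by norm_num
  have hz3 : 0 ≤ (2 : ℝ) ^ 20 * z ^ 2 := by positivity
  have hb1 : |b * xs F 0 s (-1)| ≤ 1 / 2 ^ 90 := by
    have h9 : |xs F 0 s (-1)| ≤ 4 := by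
      rw [abs_le]
      have h10 : h ≤ 1 / 4 := hh2.trans (by norm_num)
      constructor
      · linarith [hm.1]
      · linarith [hm.2]
    rw [abs_mul, abs_of_pos b_pos]
    calc b * |xs F 0 s (-1)| ≤ b * 4 := mul_le_mul_of_nonneg_left h9 b_pos.le
      _ ≤ 1 / 2 ^ 90 := by
          rw [b_eq]
          norm_num
  have hexp : Phi F 0 s 0 = F.P 0 (xs F 0 s 0) - b * xs F 0 s (-1) - xs F 0 s 1 := by
    simp [Phi]
  rw [hexp]
  simp only [Pi.zero_apply, add_zero] at hf0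
  rw [abs_le] at hf0 hb1
  have h11 : h ≤ 1 / 2 ^ 100 := hh2.trans (by norm_num)
  have hn : (1 : ℝ) / 2 ^ 200 + 1 / 2 ^ 200 + 1 / 2 ^ 90 + 1 / 2 ^ 19 + 1 / 2 ^ 100 ≤
      1 / 2 ^ 18 := by
    norm_num
  have hn2 : (0 : ℝ) < 1 / 2 ^ 19 := by positivity
  have hn3 : (0 : ℝ) < 1 / 2 ^ 100 := by positivity
  rw [abs_le]
  constructor
  · linarith [hf0.1, hf0.2, hb1.1, hb1.2, hp.1, hp.2]
  · linarith [hf0.1, hf0.2, hb1.1, hb1.2, hp.1, hp.2]

/-- **S10** root parameters: `|Rr F 0 i estar^∞ mid^∞| ≤ 2^-18`, then S8. -/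
theorem root_par (F : Fam) : ∃ a : Fin 8 → ℝ, (∀ i, |a i| ≤ 1 / 2 ^ 17) ∧
    ∀ i, Rr F a i (fun _ => estar) (fun _ => mid) = 0 := by
  obtain ⟨a, hd, hP⟩ := solve F (a₀ := 0) (by intro i; simp)
    (ς := fun i => symOf (sf i (fun _ => estar) (fun _ => mid)))
    (fun i => adm_sf i _ _) (fun i => by simp [symOf, sf, Lt.sym])
    (ρ := 1 / 2 ^ 18) (by positivity) (by norm_num) (fun i => root_small F i)
  refine ⟨a, fun i => ?_, fun i => hP i⟩
  have h1 : dist (a i) ((0 : Fin 8 → ℝ) i) ≤ dist a 0 := dist_le_pi_dist a 0 i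
  rw [Real.dist_eq, Pi.zero_apply, sub_zero] at h1
  refine h1.trans (hd.trans ?_)
  norm_num

end Pool.Agent.WildW
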